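import Pool.Agent.Lib.MP_b83a82_al.Alg.SC

/-!
Lemma E: a finite abelian group `S` acting faithfully on an elementary abelian group of order
`p ^ n` with `|S : S ^ p| ≤ p ^ a` has order at most `p ^ (a + n)`.
-/
set_option autoImplicit false

namespace Pool.Agent.Lib.MP_b83a82_al.AF

open Module Pool.Agent.Lib.MP_b83a82_al.Alg

/-- a pencil of linear maps with maximal rank at `0` -/
theorem pencil {K U W : Type*} [Field K] [Infinite K] [AddCommGroup U] [Module K U]
    [FiniteDimensional K U] [AddCommGroup W] [Module K W] [FiniteDimensional K W]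
    (P Q : U →ₗ[K] W)
    (hmax : ∀ t : K, finrank K (LinearMap.range (P + t • Q)) ≤ finrank K (LinearMap.range P))
    (u : U) (hu : P u = 0) : Q u ∈ LinearMap.range P := by
  classical
  by_contra hcon
  let c : ℕ → (U × K) →ₗ[K] W := fun i =>
    if i = 0 then P.coprod (LinearMap.toSpanSingleton K W (Q u))
    else if i = 1 then Q.coprod 0 else 0
  have hc : ∀ t : K, ∑ i ∈ Finset.range 2, t ^ i • c i =
      (P + t • Q).coprod (LinearMap.toSpanSingleton K W (Q u)) := by
    intro t
    rw [Finset.sum_range_succ, Finset.sum_range_one]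
    apply LinearMap.ext
    rintro ⟨y, s⟩
    simp only [c, pow_zero, one_smul, pow_one, if_true, one_ne_zero, if_false,
      LinearMap.add_apply, LinearMap.smul_apply, LinearMap.coprod_apply,
      LinearMap.toSpanSingleton_apply, LinearMap.zero_apply, add_zero]
    abel
  have hsc := rank_semicont K (U × K) W 2 c
  have hfin := hsc.union (Set.finite_singleton (0 : K))
  obtain ⟨t, ht⟩ := hfin.exists_notMem
  simp only [Set.mem_union, Set.mem_ofPred_eq, Set.mem_singleton_iff, not_or, not_lt] at ht
  obtain ⟨h1, h2⟩ := ht
  rw [hc t, hc 0] at h1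
  have h0 : finrank K (LinearMap.range P) + 1 ≤ finrank K (LinearMap.range
      ((P + (0 : K) • Q).coprod (LinearMap.toSpanSingleton K W (Q u)))) := by
    rw [zero_smul, add_zero, LinearMap.range_coprod, LinearMap.range_toSpanSingleton]
    have hlt : LinearMap.range P < LinearMap.range P ⊔ Submodule.span K {Q u} := by
      refine lt_of_le_of_ne le_sup_left fun heq => hcon ?_
      rw [heq]
      exact Submodule.mem_sup_right (Submodule.mem_span_singleton_self _)
    exact Submodule.finrank_lt_finrank_of_lt hlt
  have h4 : LinearMap.range ((P + t • Q).coprod (LinearMap.toSpanSingleton K W (Q u))) =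
      LinearMap.range (P + t • Q) := by
    rw [LinearMap.range_coprod, LinearMap.range_toSpanSingleton, sup_eq_left,
      Submodule.span_singleton_le_iff_mem]
    refine ⟨t⁻¹ • u, ?_⟩
    rw [LinearMap.add_apply, map_smul, hu, smul_zero, zero_add, LinearMap.smul_apply, map_smul,
      smul_smul, mul_inv_cancel₀ h2, one_smul]
  rw [h4] at h1
  have h5 := hmax t
  omega

/-- A space of commuting operators without nonzero elements of square zero has dimension at most
the dimension of the space (infinite field). -/
theorem commuting_dim {K W : Type*} [Field K] [Infinite K] [AddCommGroup W] [Module K W]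
    [FiniteDimensional K W] (m : ℕ) (x : Fin m → Module.End K W)
    (hcomm : ∀ i j, x i * x j = x j * x i)
    (hsq : ∀ c : Fin m → K, (∑ i, c i • x i) * (∑ i, c i • x i) = 0 → c = 0) :
    m ≤ finrank K W := by
  classical
  let φ : W → (Fin m → K) →ₗ[K] W := fun v => Fintype.linearCombination K (fun i => x i v)
  have hφ : ∀ v c, φ v c = ∑ i, c i • x i v := fun v c => Fintype.linearCombination_apply K _ c
  have hφ' : ∀ v c, φ v c = (∑ i, c i • x i) v := by
    intro v c
    rw [hφ, LinearMap.sum_apply]
    rfl
  let S : W → ℕ := fun v => finrank K (LinearMap.range (φ v))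
  have hbdd : BddAbove (Set.range S) := by
    refine ⟨finrank K W, ?_⟩
    rintro _ ⟨v, rfl⟩
    exact Submodule.finrank_le _
  obtain ⟨v, hv⟩ := Nat.sSup_mem (Set.range_nonempty S) hbdd
  have hmax : ∀ w, S w ≤ S v := fun w => by
    rw [hv]
    exact le_csSup hbdd ⟨w, rfl⟩
  have hker : LinearMap.ker (φ v) = ⊥ := by
    rw [LinearMap.ker_eq_bot']
    intro c hc
    apply hsq
    apply LinearMap.ext
    intro w
    rw [Module.End.mul_apply, LinearMap.zero_apply]
    have h1 : φ w c ∈ LinearMap.range (φ v) := by
      refine pencil (φ v) (φ w) (fun t => ?_) c hc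
      have h2 : φ v + t • φ w = φ (v + t • w) := by
        apply LinearMap.ext
        intro d
        rw [LinearMap.add_apply, LinearMap.smul_apply, hφ', hφ', hφ', map_add, map_smul]
      rw [h2]
      exact hmax _
    obtain ⟨y, hy⟩ := h1
    rw [hφ', hφ'] at hy
    rw [← hy]
    have h3 : (∑ i, c i • x i) * (∑ i, y i • x i) = (∑ i, y i • x i) * (∑ i, c i • x i) := by
      have : Commute (∑ i, c i • x i) (∑ i, y i • x i) := by
        refine Commute.sum_left _ _ _ fun i _ => Commute.sum_right _ _ _ fun j _ => ?_
        exact ((show Commute (x i) (x j) from hcomm i j).smul_left _).smul_right _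
      exact this
    rw [← Module.End.mul_apply, h3, Module.End.mul_apply, ← hφ' v c, hc, map_zero]
  have h1 := LinearMap.finrank_le_finrank_of_injective (LinearMap.ker_eq_bot.1 hker)
  rwa [finrank_fin_fun] at h1

theorem sum_pow_char_commute {R : Type*} [Ring R] (p : ℕ) [Fact p.Prime] [CharP R p] {ι : Type*}
    (s : Finset ι) (y : ι → R) (h : ∀ i j, Commute (y i) (y j)) :
    (∑ i ∈ s, y i) ^ p = ∑ i ∈ s, y i ^ p := by
  classical
  induction s using Finset.induction_on with
  | empty => simp [(Fact.out : p.Prime).ne_zero]
  | insert a s ha ih =>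
    rw [Finset.sum_insert ha, Finset.sum_insert ha, ← ih]
    exact add_pow_char_of_commute p (Commute.sum_right _ _ _ fun i _ => h a i)

/-- matrices over any field of characteristic `p` -/
theorem commuting_matrices {F : Type*} [Field F] (p : ℕ) [hp : Fact p.Prime] [CharP F p]
    (n m : ℕ) (A : Fin m → Matrix (Fin n) (Fin n) F) (hcomm : ∀ i j, A i * A j = A j * A i)
    (hli : LinearIndependent F (fun i => A i ^ p)) : m ≤ n := by
  classical
  rcases Nat.eq_zero_or_pos n with rfl | hn
  · rcases Nat.eq_zero_or_pos m with rfl | hm
    · exact le_rfl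
    · exact absurd (Subsingleton.elim _ _) (hli.ne_zero ⟨0, hm⟩)
  have : Nonempty (Fin n) := ⟨⟨0, hn⟩⟩
  let K := AlgebraicClosure F
  have : CharP K p := charP_of_injective_algebraMap (algebraMap F K).injective p
  let μ : Matrix (Fin n) (Fin n) F →+* Matrix (Fin n) (Fin n) K := (algebraMap F K).mapMatrix
  let τ : Matrix (Fin n) (Fin n) K ≃ₐ[K] Module.End K (Fin n → K) := Matrix.toLinAlgEquiv'
  have key := commuting_dim m (fun i => τ (μ (A i)))
    (fun i j => by rw [← map_mul, ← map_mul, hcomm, map_mul, map_mul]) (fun c hc => ?_)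
  · rwa [finrank_fin_fun] at key
  · have h1 : ∑ i, c i • τ (μ (A i)) = τ (∑ i, c i • μ (A i)) := by
      rw [map_sum]
      exact Finset.sum_congr rfl fun i _ => (map_smul τ _ _).symm
    rw [h1, ← map_mul, map_eq_zero_iff τ τ.injective] at hc
    have h2 : (∑ i, c i • μ (A i)) ^ p = 0 := by
      have : p = 2 + (p - 2) := by have := hp.out.two_le; omega
      rw [this, pow_add, pow_two, hc, zero_mul]
    rw [sum_pow_char_commute p _ _ (fun i j => by
      have : Commute (μ (A i)) (μ (A j)) := by
        show μ (A i) * μ (A j) = μ (A j) * μ (A i)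
        rw [← map_mul, hcomm, map_mul]
      exact (this.smul_left _).smul_right _)] at h2
    have h3 : ∀ i, (c i • μ (A i)) ^ p = c i ^ p • μ (A i ^ p) := by
      intro i
      rw [smul_pow, map_pow]
    rw [Finset.sum_congr rfl fun i _ => h3 i] at h2
    -- entries
    have h4 : ∀ j k, ∑ i, c i ^ p * algebraMap F K ((A i ^ p) j k) = 0 := by
      intro j k
      have := congrFun (congrFun h2 j) k
      rw [Matrix.sum_apply] at this
      exact this
    let g : (Fin m → F) →ₗ[F] Matrix (Fin n) (Fin n) F :=
      Fintype.linearCombination F (fun i => A i ^ p)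
    have hg : LinearMap.ker g = ⊥ := by
      rw [LinearMap.ker_eq_bot']
      intro d hd
      have hd' : ∑ i, d i • A i ^ p = 0 := by
        rw [← Fintype.linearCombination_apply F (fun i => A i ^ p) d]
        exact hd
      funext i
      exact Fintype.linearIndependent_iff.1 hli d hd' i
    obtain ⟨π, hπ⟩ := LinearMap.exists_leftInverse_of_injective g hg
    have hπ' : ∀ i i0, π (A i ^ p) i0 = if i = i0 then 1 else 0 := by
      intro i i0
      have h5 : g (Pi.single i 1) = A i ^ p := by
        show Fintype.linearCombination F (fun i => A i ^ p) (Pi.single i 1) = _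
        rw [Fintype.linearCombination_apply_single, one_smul]
      have h6 := LinearMap.congr_fun hπ (Pi.single i 1)
      rw [LinearMap.comp_apply, h5, LinearMap.id_apply] at h6
      rw [h6, Pi.single_apply]
      by_cases h : i = i0
      · rw [if_pos h, if_pos h.symm]
      · rw [if_neg h, if_neg fun h' => h h'.symm]
    funext i0
    have h7 : ∀ M : Matrix (Fin n) (Fin n) F, π M i0 =
        ∑ j, ∑ k, M j k * π (Matrix.single j k 1) i0 := by
      intro M
      conv_lhs => rw [Matrix.matrix_eq_sum_single M]
      rw [map_sum, Finset.sum_apply]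
      refine Finset.sum_congr rfl fun j _ => ?_
      rw [map_sum, Finset.sum_apply]
      refine Finset.sum_congr rfl fun k _ => ?_
      have : Matrix.single j k (M j k) = M j k • Matrix.single j k (1 : F) := by
        rw [Matrix.smul_single, smul_eq_mul, mul_one]
      rw [this, map_smul]
      rfl
    have h8 : c i0 ^ p = ∑ j, ∑ k, (∑ i, c i ^ p * algebraMap F K ((A i ^ p) j k)) *
        algebraMap F K (π (Matrix.single j k 1) i0) := by
      have h9 : c i0 ^ p = ∑ i, c i ^ p * algebraMap F K (π (A i ^ p) i0) := by
        rw [Finset.sum_eq_single i0]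
        · rw [hπ', if_pos rfl, map_one, mul_one]
        · intro i _ hi
          rw [hπ', if_neg hi, map_zero, mul_zero]
        · intro h
          exact absurd (Finset.mem_univ _) h
      rw [h9, Finset.sum_congr rfl fun i _ => by rw [h7 (A i ^ p)]]
      simp only [map_sum, map_mul, Finset.mul_sum, Finset.sum_mul]
      rw [Finset.sum_comm]
      refine Finset.sum_congr rfl fun j _ => ?_
      rw [Finset.sum_comm]
      refine Finset.sum_congr rfl fun k _ => Finset.sum_congr rfl fun i _ => ?_
      ring
    have h10 : c i0 ^ p = 0 := by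
      rw [h8]
      refine Finset.sum_eq_zero fun j _ => Finset.sum_eq_zero fun k _ => ?_
      rw [h4, zero_mul]
    exact pow_eq_zero_iff hp.out.ne_zero |>.1 h10

/-- endomorphisms of a finite-dimensional space -/
theorem commuting_end {F V : Type*} [Field F] (p : ℕ) [hp : Fact p.Prime] [CharP F p]
    [AddCommGroup V] [Module F V] [FiniteDimensional F V] (m : ℕ) (x : Fin m → Module.End F V)
    (hcomm : ∀ i j, x i * x j = x j * x i)
    (hli : LinearIndependent F (fun i => x i ^ p)) : m ≤ finrank F V := by
  let b := finBasis F V
  let τ : Module.End F V ≃ₐ[F] Matrix (Fin (finrank F V)) (Fin (finrank F V)) F :=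
    LinearMap.toMatrixAlgEquiv b
  refine commuting_matrices p (finrank F V) m (fun i => τ (x i))
    (fun i j => by rw [← map_mul, hcomm, map_mul]) ?_
  have h1 := hli.map' τ.toLinearMap (LinearMap.ker_eq_bot.2 τ.injective)
  have h2 : (fun i => τ (x i) ^ p) = (τ.toLinearMap ∘ fun i => x i ^ p) := by
    funext i
    show τ (x i) ^ p = τ (x i ^ p)
    rw [map_pow]
  rw [h2]
  exact h1

/-- Lemma E -/
theorem lemmaE {p n a : ℕ} [hp : Fact p.Prime] {V : Type*} [AddCommGroup V] [Finite V]
    (hV : ∀ v : V, p • v = 0) (hcard : Nat.card V = p ^ n) {S : Type*} [CommGroup S] [Finite S]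
    (f : S →* AddMonoid.End V) (hf : Function.Injective f)
    (hind : (powMonoidHom p : S →* S).range.index ≤ p ^ a) : Nat.card S ≤ p ^ (a + n) := by
  classical
  let _ : Module (ZMod p) V := AddCommGroup.zmodModule (n := p) hV
  have hfd : FiniteDimensional (ZMod p) V := Module.Finite.of_finite
  have hn : finrank (ZMod p) V = n := by
    have h1 : Nat.card V = p ^ finrank (ZMod p) V := by
      rw [Module.natCard_eq_pow_finrank (K := ZMod p), Nat.card_zmod]
    rw [hcard] at h1
    exact (Nat.pow_right_injective hp.out.two_le h1).symm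
  -- linear version of the representation
  let g : S →* Module.End (ZMod p) V :=
    { toFun := fun s => AddMonoidHom.toZModLinearMap p (f s)
      map_one' := by rw [map_one]; rfl
      map_mul' := fun s t => by rw [map_mul]; rfl }
  have hg : Function.Injective g := by
    intro s t h
    apply hf
    apply AddMonoidHom.ext
    intro v
    exact LinearMap.congr_fun h v
  rcases subsingleton_or_nontrivial V with hsub | hnt
  · have h1 : Nat.card S ≤ 1 := by
      have : Subsingleton S := ⟨fun s t => hg (LinearMap.ext fun v => Subsingleton.elim _ _)⟩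
      exact Finite.card_le_one_iff_subsingleton.2 this
    exact h1.trans (Nat.one_le_pow _ _ hp.out.pos)
  have hchar : CharP (Module.End (ZMod p) V) p :=
    charP_of_injective_algebraMap (algebraMap (ZMod p) (Module.End (ZMod p) V)).injective p
  let Z : Submodule (ZMod p) (Module.End (ZMod p) V) :=
    Submodule.span (ZMod p) (Set.range fun s : S => (g s - 1) ^ p)
  have hpow : ∀ s : S, (g s - 1) ^ p = g (s ^ p) - 1 := by
    intro s
    rw [sub_pow_char_of_commute p (Commute.one_right _), one_pow, map_pow]
  -- a basis from the spanning set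
  obtain ⟨κ, e, he, hspan, hli⟩ := exists_linearIndependent' (ZMod p)
    (fun s : S => (g s - 1) ^ p)
  have hfinS : Fintype S := Fintype.ofFinite S
  have hκ : Finite κ := Finite.of_injective e he
  have hZ : finrank (ZMod p) Z ≤ n := by
    have hκ' : Fintype κ := Fintype.ofFinite κ
    have h1 : finrank (ZMod p) Z = Fintype.card κ := by
      show finrank (ZMod p) (Submodule.span (ZMod p) (Set.range fun s : S => (g s - 1) ^ p)) = _
      rw [← hspan]
      exact finrank_span_eq_card hli
    rw [h1, ← hn]
    let eq := Fintype.equivFin κ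
    refine commuting_end p (Fintype.card κ) (fun i => g (e (eq.symm i)) - 1) (fun i j => ?_) ?_
    · have h2 : Commute (g (e (eq.symm i))) (g (e (eq.symm j))) := by
        show _ * _ = _ * _
        rw [← map_mul, mul_comm, map_mul]
      have h3 : Commute (g (e (eq.symm i)) - 1) (g (e (eq.symm j)) - 1) :=
        (h2.sub_left (Commute.one_left _)).sub_right
          ((Commute.one_right _))
      exact h3
    · exact hli.comp eq.symm eq.symm.injective
  -- counting
  have hZcard : Nat.card Z = p ^ finrank (ZMod p) Z := by
    rw [Module.natCard_eq_pow_finrank (K := ZMod p), Nat.card_zmod]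
  have hrange : Nat.card (powMonoidHom p : S →* S).range ≤ Nat.card Z := by
    have hfin : Finite Z := Module.finite_of_finite (ZMod p)
    refine Nat.card_le_card_of_injective
      (fun s : (powMonoidHom p : S →* S).range => (⟨g s - 1, ?_⟩ : Z)) ?_
    · obtain ⟨s, t, rfl⟩ := s
      refine Submodule.subset_span ⟨t, ?_⟩
      exact hpow t
    · intro s t h
      apply Subtype.ext
      apply hg
      have := congrArg Subtype.val h
      exact sub_left_injective this
  have h1 := (powMonoidHom p : S →* S).range.card_mul_index
  calc Nat.card S = Nat.card (powMonoidHom p : S →* S).range *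
        (powMonoidHom p : S →* S).range.index := h1.symm
    _ ≤ p ^ n * p ^ a := Nat.mul_le_mul
        (hrange.trans (by rw [hZcard]; exact Nat.pow_le_pow_right hp.out.pos hZ)) hind
    _ = p ^ (a + n) := by rw [← pow_add, add_comm]

end Pool.Agent.Lib.MP_b83a82_al.AF
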