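import Pool.Agent.Lib.MP_b83a82_al.Alg.Main
import Pool.Agent.Lib.MP_b83a82_al.AF.Generic

/-!
Orders of abelian `p`-groups of given rank acting faithfully on an elementary abelian group of
order `p ^ n`: `log |S| ≤ (j + 1) a + (2/3)^j n` for all `j`.
-/
set_option autoImplicit false

namespace Pool.Agent.Lib.MP_b83a82_al.AF

open Module Pool.Agent.Lib.MP_b83a82_al.Alg

section

variable {p : ℕ} {E : Type*} [Ring E] [Algebra (ZMod p) E]
  {S : Type*} [CommGroup S] (g : S →* E)

/-- the span of the elements `(g s) ^ q - 1` -/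
def ZS (p : ℕ) {E : Type*} [Ring E] [Algebra (ZMod p) E] {S : Type*} [CommGroup S] (g : S →* E)
    (q : ℕ) : Submodule (ZMod p) E :=
  Submodule.span (ZMod p) (Set.range fun s : S => g (s ^ q) - 1)

theorem ZS_mul (q : ℕ) {x y : E} (hx : x ∈ ZS p g q) (hy : y ∈ ZS p g q) :
    x * y ∈ ZS p g q := by
  have h1 : ∀ s : S, ∀ y ∈ ZS p g q, (g (s ^ q) - 1) * y ∈ ZS p g q := by
    intro s y hy
    unfold ZS at hy
    induction hy using Submodule.span_induction with
    | mem y hy =>
      obtain ⟨t, rfl⟩ := hy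
      have h2 : (g (s ^ q) - 1) * (g (t ^ q) - 1) = (g ((s * t) ^ q) - 1) - (g (s ^ q) - 1) -
          (g (t ^ q) - 1) := by
        rw [mul_pow, map_mul]
        noncomm_ring
      have h3 : ∀ u : S, g (u ^ q) - 1 ∈ ZS p g q := fun u => Submodule.subset_span ⟨u, rfl⟩
      show (g (s ^ q) - 1) * (g (t ^ q) - 1) ∈ _
      rw [h2]
      exact Submodule.sub_mem _ (Submodule.sub_mem _ (h3 _) (h3 _)) (h3 _)
    | zero => rw [mul_zero]; exact Submodule.zero_mem _
    | add x y _ _ hx hy => rw [mul_add]; exact Submodule.add_mem _ hx hy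
    | smul c x _ hx => rw [mul_smul_comm]; exact Submodule.smul_mem _ _ hx
  unfold ZS at hx
  induction hx using Submodule.span_induction with
  | mem x hx =>
    obtain ⟨s, rfl⟩ := hx
    exact h1 s y hy
  | zero => rw [zero_mul]; exact Submodule.zero_mem _
  | add x z _ _ hx hz => rw [add_mul]; exact Submodule.add_mem _ hx hz
  | smul c x _ hx => rw [smul_mul_assoc]; exact Submodule.smul_mem _ _ hx

theorem ZS_comm (q : ℕ) {x y : E} (hx : x ∈ ZS p g q) (hy : y ∈ ZS p g q) : x * y = y * x := by
  have h1 : ∀ s : S, ∀ y ∈ ZS p g q, Commute (g (s ^ q) - 1) y := by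
    intro s y hy
    unfold ZS at hy
    induction hy using Submodule.span_induction with
    | mem y hy =>
      obtain ⟨t, rfl⟩ := hy
      have h2 : Commute (g (s ^ q)) (g (t ^ q)) := by
        show _ * _ = _ * _
        rw [← map_mul, mul_comm, map_mul]
      exact (h2.sub_left (Commute.one_left _)).sub_right (Commute.one_right _)
    | zero => exact Commute.zero_right _
    | add x y _ _ hx hy => exact hx.add_right hy
    | smul c x _ hx => exact hx.smul_right c
  unfold ZS at hx
  induction hx using Submodule.span_induction with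
  | mem x hx =>
    obtain ⟨s, rfl⟩ := hx
    exact h1 s y hy
  | zero => exact Commute.zero_left _
  | add x z _ _ hx hz => exact Commute.add_left hx hz
  | smul c x _ hx => exact Commute.smul_left hx c

/-- the span as a non-unital subalgebra -/
def ZA (p : ℕ) {E : Type*} [Ring E] [Algebra (ZMod p) E] {S : Type*} [CommGroup S] (g : S →* E)
    (q : ℕ) : NonUnitalSubalgebra (ZMod p) E where
  carrier := ZS p g q
  add_mem' := fun hx hy => Submodule.add_mem _ hx hy
  zero_mem' := Submodule.zero_mem _
  mul_mem' := fun hx hy => by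
    exact ZS_mul (E := E) g q hx hy
  smul_mem' := fun c _ hx => Submodule.smul_mem _ c hx

end

/-- one step of the count -/
theorem ZS_step {p : ℕ} [hp : Fact p.Prime] {E : Type*} [Ring E] [Algebra (ZMod p) E] [Finite E]
    [Nontrivial E] {S : Type*} [CommGroup S] [Finite S] (hS : IsPGroup p S) (g : S →* E) (q : ℕ) :
    3 * finrank (ZMod p) (ZS p g (q * p)) ≤ 2 * finrank (ZMod p) (ZS p g q) := by
  classical
  have hchar : CharP E p := charP_of_injective_algebraMap (algebraMap (ZMod p) E).injective p
  let _ : NonUnitalCommRing (ZA p g q) :=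
    { (inferInstance : NonUnitalRing (ZA p g q)) with
      mul_comm := fun x y => Subtype.ext (ZS_comm g q x.2 y.2) }
  have hfinA : Finite (ZA p g q) := Subtype.finite
  have hfd : FiniteDimensional (ZMod p) (ZA p g q) := Module.Finite.of_finite
  have hfold : ∀ (x : ZA p g q) (m : ℕ),
      (((List.replicate m x).foldr (· * ·) x : ZA p g q) : E) = (x : E) ^ (m + 1) := by
    intro x m
    induction m with
    | zero => simp
    | succ m ih =>
      rw [pow_succ', ← ih]
      rfl
  have hpR : ∀ x : ZA p g q, p • x = 0 := by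
    intro x
    rw [← Nat.cast_smul_eq_nsmul (ZMod p)]
    simp
  -- all elements are nilpotent
  obtain ⟨k, hk⟩ : ∃ k : ℕ, ∀ s : S, s ^ p ^ k = 1 := by
    obtain ⟨k, hk⟩ := IsPGroup.iff_card.1 hS
    exact ⟨k, fun s => by rw [← hk]; exact pow_card_eq_one'⟩
  have hnilE : ∀ x ∈ ZS p g q, x ^ p ^ k = 0 := by
    intro x hx
    have hx' := hx
    unfold ZS at hx
    induction hx using Submodule.span_induction with
    | mem x hx =>
      obtain ⟨s, rfl⟩ := hx
      have h1 : (g (s ^ q) - 1) ^ p ^ k = g ((s ^ q) ^ p ^ k) - 1 := by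
        rw [sub_pow_char_pow_of_commute p k (Commute.one_right _), one_pow,
          map_pow g (s ^ q) (p ^ k)]
      show (g (s ^ q) - 1) ^ p ^ k = 0
      rw [h1, hk, map_one, sub_self]
    | zero => rw [zero_pow (pow_ne_zero _ hp.out.ne_zero)]
    | add x y hx hy ihx ihy =>
      have hc : Commute x y := ZS_comm g q hx hy
      rw [add_pow_char_pow_of_commute p k hc, ihx hx, ihy hy, add_zero]
    | smul c x hx ih =>
      rw [smul_pow, ih hx, smul_zero]
  have hnil : ∀ x : ZA p g q, ∃ m : ℕ, (List.replicate m x).foldr (· * ·) x = 0 := by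
    intro x
    refine ⟨p ^ k - 1, Subtype.ext ?_⟩
    rw [hfold, Nat.sub_add_cancel (Nat.one_le_pow _ _ hp.out.pos)]
    exact hnilE x x.2
  have h1 := span_ppow_le p hp.out (ZMod p) (ZA p g q)
    (nilpotent_of_forall p hp.out (ZA p g q) hpR hnil)
  have h2 : finrank (ZMod p) (ZS p g (q * p)) ≤ finrank (ZMod p)
      (Submodule.span (ZMod p) (Set.range (fun a : ZA p g q => ppow p a))) := by
    let ι : ZA p g q →ₗ[ZMod p] E :=
      { toFun := fun x => x
        map_add' := fun _ _ => rfl
        map_smul' := fun _ _ => rfl }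
    have h3 : ZS p g (q * p) ≤ (Submodule.span (ZMod p)
        (Set.range (fun a : ZA p g q => ppow p a))).map ι := by
      unfold ZS
      rw [Submodule.span_le]
      rintro _ ⟨s, rfl⟩
      have hs : g (s ^ q) - 1 ∈ ZS p g q := Submodule.subset_span ⟨s, rfl⟩
      refine ⟨ppow p (⟨g (s ^ q) - 1, hs⟩ : ZA p g q), Submodule.subset_span ⟨_, rfl⟩, ?_⟩
      show ((ppow p (⟨g (s ^ q) - 1, hs⟩ : ZA p g q) : ZA p g q) : E) = g (s ^ (q * p)) - 1
      unfold ppow
      rw [hfold, Nat.sub_add_cancel hp.out.one_le, sub_pow_char_of_commute p (Commute.one_right _),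
        one_pow, pow_mul, map_pow g (s ^ q) p]
    refine (Submodule.finrank_mono h3).trans ?_
    exact Submodule.finrank_map_le _ _
  have h3 : finrank (ZMod p) (ZA p g q) = finrank (ZMod p) (ZS p g q) := rfl
  omega

theorem index_range_pow_mul {S : Type*} [CommGroup S] [Finite S] (m k : ℕ) :
    (powMonoidHom (m * k) : S →* S).range.index ≤
      (powMonoidHom m : S →* S).range.index * (powMonoidHom k : S →* S).range.index := by
  have h1 : (powMonoidHom (m * k) : S →* S).range =
      ((powMonoidHom m : S →* S).range).map (powMonoidHom k : S →* S) := by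
    rw [MonoidHom.map_range]
    congr 1
    ext s
    simp [pow_mul]
  rw [h1, Subgroup.index_map]
  exact Nat.mul_le_mul_right _ (Nat.le_of_dvd (Nat.pos_of_ne_zero Subgroup.index_ne_zero_of_finite)
    (Subgroup.index_dvd_of_le le_sup_left))

theorem index_range_pow_pow {S : Type*} [CommGroup S] [Finite S] (p a : ℕ)
    (hind : (powMonoidHom p : S →* S).range.index ≤ p ^ a) (j : ℕ) :
    (powMonoidHom (p ^ j) : S →* S).range.index ≤ p ^ (j * a) := by
  induction j with
  | zero =>
    have h1 : (powMonoidHom (p ^ 0) : S →* S).range = ⊤ := by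
      rw [MonoidHom.range_eq_top]
      intro s
      exact ⟨s, by simp⟩
    rw [h1, Subgroup.index_top, zero_mul, pow_zero]
  | succ j ih =>
    rw [pow_succ]
    refine (index_range_pow_mul _ _).trans ?_
    rw [add_mul, one_mul, pow_add]
    exact Nat.mul_le_mul ih hind

/-- `log |S| ≤ (j + 1) a + (2/3)^j n` -/
theorem abelian_order {p n a : ℕ} [hp : Fact p.Prime] (j : ℕ) {V : Type*} [AddCommGroup V]
    [Finite V] (hV : ∀ v : V, p • v = 0) (hcard : Nat.card V = p ^ n) {S : Type*} [CommGroup S]
    [Finite S] (hS : IsPGroup p S) (f : S →* AddMonoid.End V) (hf : Function.Injective f)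
    (hind : (powMonoidHom p : S →* S).range.index ≤ p ^ a) :
    (Nat.card S) ^ (3 ^ j) ≤ p ^ (3 ^ j * ((j + 1) * a) + 2 ^ j * n) := by
  classical
  let _ : Module (ZMod p) V := AddCommGroup.zmodModule (n := p) hV
  have hfd : FiniteDimensional (ZMod p) V := Module.Finite.of_finite
  have hn : finrank (ZMod p) V = n := by
    have h1 : Nat.card V = p ^ finrank (ZMod p) V := by
      rw [Module.natCard_eq_pow_finrank (K := ZMod p), Nat.card_zmod]
    rw [hcard] at h1
    exact (Nat.pow_right_injective hp.out.two_le h1).symm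
  let g : S →* Module.End (ZMod p) V := linRep p f
  have hg : Function.Injective g := linRep_injective p f hf
  rcases subsingleton_or_nontrivial V with hsub | hnt
  · have h1 : Nat.card S ≤ 1 := by
      have : Subsingleton S := ⟨fun s t => hg (LinearMap.ext fun v => Subsingleton.elim _ _)⟩
      exact Finite.card_le_one_iff_subsingleton.2 this
    exact (Nat.pow_le_pow_left h1 _).trans (by rw [one_pow]; exact Nat.one_le_pow _ _ hp.out.pos)
  have hchar : CharP (Module.End (ZMod p) V) p :=
    charP_of_injective_algebraMap (algebraMap (ZMod p) (Module.End (ZMod p) V)).injective p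
  have hfinE : Finite (Module.End (ZMod p) V) := Module.finite_of_finite (ZMod p)
  have h0 : finrank (ZMod p) (ZS p g p) ≤ n := by
    rw [← hn]
    have h1 := finrank_pow_span_le g
    have h2 : (fun s : S => (g s - 1) ^ p) = fun s : S => g (s ^ p) - 1 := by
      funext s
      rw [sub_pow_char_of_commute p (Commute.one_right _), one_pow, map_pow]
    rw [h2] at h1
    exact h1
  have hstep : ∀ j : ℕ, 3 ^ j * finrank (ZMod p) (ZS p g (p ^ (j + 1))) ≤ 2 ^ j * n := by
    intro j
    induction j with
    | zero =>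
      rw [pow_zero, one_mul, pow_zero, one_mul, zero_add, pow_one]
      exact h0
    | succ j ih =>
      have h1 := ZS_step hS g (p ^ (j + 1))
      rw [← pow_succ] at h1
      calc 3 ^ (j + 1) * finrank (ZMod p) (ZS p g (p ^ (j + 1 + 1)))
          = 3 ^ j * (3 * finrank (ZMod p) (ZS p g (p ^ (j + 1 + 1)))) := by ring
        _ ≤ 3 ^ j * (2 * finrank (ZMod p) (ZS p g (p ^ (j + 1)))) := Nat.mul_le_mul_left _ h1
        _ = 2 * (3 ^ j * finrank (ZMod p) (ZS p g (p ^ (j + 1)))) := by ring
        _ ≤ 2 * (2 ^ j * n) := Nat.mul_le_mul_left _ ih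
        _ = 2 ^ (j + 1) * n := by ring
  -- counting
  have hrange : Nat.card (powMonoidHom (p ^ (j + 1)) : S →* S).range ≤
      p ^ finrank (ZMod p) (ZS p g (p ^ (j + 1))) := by
    have hZcard : Nat.card (ZS p g (p ^ (j + 1))) =
        p ^ finrank (ZMod p) (ZS p g (p ^ (j + 1))) := by
      rw [Module.natCard_eq_pow_finrank (K := ZMod p), Nat.card_zmod]
    rw [← hZcard]
    have hfin : Finite (ZS p g (p ^ (j + 1))) := Module.finite_of_finite (ZMod p)
    refine Nat.card_le_card_of_injective
      (fun s : (powMonoidHom (p ^ (j + 1)) : S →* S).range =>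
        (⟨g s - 1, ?_⟩ : ZS p g (p ^ (j + 1)))) ?_
    · obtain ⟨s, t, rfl⟩ := s
      exact Submodule.subset_span ⟨t, rfl⟩
    · intro s t h
      apply Subtype.ext
      apply hg
      have := congrArg Subtype.val h
      exact sub_left_injective this
  have h1 := (powMonoidHom (p ^ (j + 1)) : S →* S).range.card_mul_index
  have h2 : Nat.card S ≤ p ^ finrank (ZMod p) (ZS p g (p ^ (j + 1))) * p ^ ((j + 1) * a) := by
    rw [← h1]
    exact Nat.mul_le_mul hrange (index_range_pow_pow p a hind (j + 1))
  calc (Nat.card S) ^ (3 ^ j)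
      ≤ (p ^ finrank (ZMod p) (ZS p g (p ^ (j + 1))) * p ^ ((j + 1) * a)) ^ (3 ^ j) :=
        Nat.pow_le_pow_left h2 _
    _ = p ^ (3 ^ j * ((j + 1) * a) + 3 ^ j * finrank (ZMod p) (ZS p g (p ^ (j + 1)))) := by
        rw [← pow_add, ← pow_mul]
        congr 1
        ring
    _ ≤ p ^ (3 ^ j * ((j + 1) * a) + 2 ^ j * n) :=
        Nat.pow_le_pow_right hp.out.pos (Nat.add_le_add_left (hstep j) _)

end Pool.Agent.Lib.MP_b83a82_al.AF
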