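import Pool.Agent.Lib.MP_b83a82_al.AF.PCentral

/-! A theorem of Alperin type: maximal normal abelian subgroups of exponent `p ^ 2`. -/

namespace Pool.Agent.Lib.MP_b83a82_al.AF

open _root_.MP_b83a82_al
open scoped commutatorElement

/-- the subgroup of elements of order dividing `p ^ i`, and the quotient by it. -/
theorem exists_omega {P : Type*} [Group P] [Finite P] {p : ℕ} [hp : Fact p.Prime]
    (hP : IsPGroup p P) (hc : Cen p P) (i : ℕ) :
    ∃ N : Subgroup P, ∃ _ : N.Normal, (∀ x, x ∈ N ↔ x ^ (p ^ i) = 1) ∧ Cen p (P ⧸ N) := by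
  induction i with
  | zero =>
    refine ⟨⊥, inferInstance, ?_, ?_⟩
    · intro x
      rw [pow_zero, pow_one, Subgroup.mem_bot]
    · intro x hx y
      induction x using QuotientGroup.induction_on with
      | H x =>
      induction y using QuotientGroup.induction_on with
      | H y =>
        rw [← QuotientGroup.mk_pow, QuotientGroup.eq_one_iff, Subgroup.mem_bot] at hx
        rw [← QuotientGroup.mk_mul, ← QuotientGroup.mk_mul, hc x hx y]
  | succ i ih =>
    obtain ⟨N, hN, hmem, hcQ⟩ := ih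
    have hPQ : IsPGroup p (P ⧸ N) := hP.to_quotient N
    let π : P →* P ⧸ N := QuotientGroup.mk' N
    have hEn := E1_normal hcQ
    have hM : ((E1 hcQ).comap π).Normal := inferInstance
    have hmem' : ∀ x, x ∈ (E1 hcQ).comap π ↔ x ^ (p ^ (i + 1)) = 1 := by
      intro x
      rw [Subgroup.mem_comap, mem_E1]
      change ((x : P) : P ⧸ N) ^ p = 1 ↔ _
      rw [← QuotientGroup.mk_pow, QuotientGroup.eq_one_iff, hmem, ← pow_mul, ← pow_succ']
    refine ⟨(E1 hcQ).comap π, hM, hmem', ?_⟩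
    intro x hx y
    induction x using QuotientGroup.induction_on with
    | H x =>
    induction y using QuotientGroup.induction_on with
    | H y =>
      rw [← QuotientGroup.mk_pow, QuotientGroup.eq_one_iff, Subgroup.mem_comap, mem_E1] at hx
      have h1 : ((x : P) : P ⧸ N) ^ (p ^ 3) = 1 := by
        have : ((x ^ (p ^ 2) : P) : P ⧸ N) ^ p = 1 := hx
        rw [QuotientGroup.mk_pow, ← pow_mul, ← pow_succ] at this
        exact this
      have h2 := hcQ.comm_pow hPQ h1 ((y : P) : P ⧸ N)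
      have h3 : ⁅x, y⁆ ∈ (E1 hcQ).comap π := by
        rw [Subgroup.mem_comap, mem_E1]
        exact h2
      have h4 : ((⁅x, y⁆ : P) : P ⧸ (E1 hcQ).comap π) = 1 := (QuotientGroup.eq_one_iff _).mpr h3
      have h5 : ⁅(x : P ⧸ (E1 hcQ).comap π), (y : P ⧸ (E1 hcQ).comap π)⁆ = 1 := h4
      exact commutatorElement_eq_one_iff_mul_comm.mp h5

theorem cen_root {Q : Type*} [Group Q] [Finite Q] {p : ℕ} [hp : Fact p.Prime]
    (hQ : IsPGroup p Q) (hc : Cen p Q) {y u : Q} (hy : y ^ (p ^ 3) = 1) (hu : u ^ p = y ^ p) :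
    (u * y⁻¹) ^ p = 1 := by
  set d := u * y⁻¹ with hd
  have hz := hc.comm_pow hQ hy d
  set z := ⁅y, d⁆ with hzd
  have hzc : ∀ t : Q, z * t = t * z := hc z (by rw [pow_two, pow_mul, hz, one_pow])
  have e1 : z * (d * y) = y * d := by
    rw [hzd]; simp only [commutatorElement_def]; group
  have h1 := mul_pow_class_two e1 hzc p
  have e2 : d * y = u := by rw [hd]; group
  rw [e2, hu] at h1
  have h2 : d ^ p = z⁻¹ ^ (p * (p - 1) / 2) := by
    have h3 : z⁻¹ ^ (p * (p - 1) / 2) * y ^ p = y ^ p * z⁻¹ ^ (p * (p - 1) / 2) := by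
      have : Commute z (y ^ p) := hzc _
      exact (this.inv_left.pow_left _).eq
    rw [← h3] at h1
    exact mul_right_cancel h1
  have h3 : d ^ (p ^ 2) = 1 := by
    rw [pow_two, pow_mul, h2, ← pow_mul, mul_comm, pow_mul, inv_pow, hz, inv_one, one_pow]
  have h4 := hc d h3
  have h5 : z = 1 := by
    rw [hzd, commutatorElement_eq_one_iff_mul_comm]
    exact (h4 y).symm
  rw [h2, h5, inv_one, one_pow]

theorem cen_root' {P : Type*} [Group P] [Finite P] {p : ℕ} [hp : Fact p.Prime]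
    (hP : IsPGroup p P) (hc : Cen p P) {y u : P} (i : ℕ) (hy : y ^ (p ^ (i + 3)) = 1)
    (hu : (u ^ p * (y ^ p)⁻¹) ^ (p ^ i) = 1) : (u * y⁻¹) ^ (p ^ (i + 1)) = 1 := by
  obtain ⟨N, hN, hmem, hcQ⟩ := exists_omega hP hc i
  have hQ : IsPGroup p (P ⧸ N) := hP.to_quotient N
  have h1 : ((y : P) : P ⧸ N) ^ (p ^ 3) = 1 := by
    rw [← QuotientGroup.mk_pow, QuotientGroup.eq_one_iff, hmem, ← pow_mul, ← pow_add, add_comm]
    exact hy
  have h2 : ((u : P) : P ⧸ N) ^ p = ((y : P) : P ⧸ N) ^ p := by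
    rw [← hmem, ← QuotientGroup.eq_one_iff] at hu
    rw [QuotientGroup.mk_mul, QuotientGroup.mk_inv, mul_inv_eq_one] at hu
    simpa using hu
  have h3 := cen_root hQ hcQ h1 h2
  rw [← QuotientGroup.mk_inv, ← QuotientGroup.mk_mul, ← QuotientGroup.mk_pow,
    QuotientGroup.eq_one_iff, hmem, ← pow_mul, ← pow_succ'] at h3
  exact h3

section
variable {G : Type*} [Group G] [Finite G] {p : ℕ} [hp : Fact p.Prime]

/-- an element which centralises the `p ^ 2`-torsion of `D`. -/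
theorem comm_omega (hG : IsPGroup p G) {D : Subgroup G} (hD : D.Normal) (hc : Cen p D) {x : G}
    (hx : ∀ y ∈ D, y ^ (p ^ 2) = 1 → ⁅x, y⁆ = 1) (i : ℕ) :
    ∀ y ∈ D, y ^ (p ^ (i + 2)) = 1 → ⁅x, y⁆ ^ (p ^ i) = 1 := by
  have hPD : IsPGroup p D := hG.to_subgroup D
  induction i with
  | zero =>
    intro y hy hy2
    rw [hx y hy hy2, one_pow]
  | succ i ih =>
    intro y hy hy2
    have h1 : ⁅x, y ^ p⁆ ^ (p ^ i) = 1 := by
      apply ih (y ^ p) (D.pow_mem hy p)
      rw [← pow_mul, ← pow_succ']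
      exact hy2
    have hu : x * y * x⁻¹ ∈ D := hD.conj_mem y hy x
    have h2 := cen_root' hPD hc (y := ⟨y, hy⟩) (u := ⟨x * y * x⁻¹, hu⟩) i
      (by apply Subtype.ext; simpa using hy2) (by
        apply Subtype.ext
        have e : (x * y * x⁻¹) ^ p * (y ^ p)⁻¹ = ⁅x, y ^ p⁆ := by
          rw [conj_pow]; simp only [commutatorElement_def]
        change ((x * y * x⁻¹) ^ p * (y ^ p)⁻¹) ^ (p ^ i) = 1
        rw [e]
        exact h1)
    have h3 := congrArg Subtype.val h2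
    exact h3

theorem step_down (hG : IsPGroup p G) {D : Subgroup G} (hD : D.Normal) (hc : Cen p D) {x w : G}
    (hx : ∀ y ∈ D, y ^ (p ^ 2) = 1 → ⁅x, y⁆ = 1) (hxp : x ^ (p ^ 2) = 1) (hw : w ∈ D)
    (hxw : (x * w) ^ (p ^ 2) = 1) (k : ℕ) (hwk : w ^ (p ^ (k + 3)) = 1) :
    w ^ (p ^ (k + 2)) = 1 := by
  have hPD : IsPGroup p D := hG.to_subgroup D
  obtain ⟨N, hN, hmem, hcQ⟩ := exists_omega hPD hc k
  let M : Subgroup G := N.map D.subtype
  have hmemM : ∀ y : G, y ∈ M ↔ y ∈ D ∧ y ^ (p ^ k) = 1 := by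
    intro y
    constructor
    · rintro ⟨z, hz, rfl⟩
      refine ⟨z.2, ?_⟩
      have := (hmem z).mp hz
      have := congrArg Subtype.val this
      simpa using this
    · rintro ⟨h1, h2⟩
      refine ⟨⟨y, h1⟩, ?_, rfl⟩
      apply (hmem _).mpr
      apply Subtype.ext
      simpa using h2
  have hM : M.Normal := by
    constructor
    intro y hy g
    rw [hmemM] at hy ⊢
    exact ⟨hD.conj_mem _ hy.1 g, by rw [conj_pow, hy.2, mul_one, mul_inv_cancel]⟩
  set z : G := ⁅w, x⁆ with hz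
  have hzD : z ∈ D := by
    have e : z = w * (x * w⁻¹ * x⁻¹) := by rw [hz]; simp only [commutatorElement_def]; group
    rw [e]
    exact D.mul_mem hw (hD.conj_mem _ (D.inv_mem hw) x)
  have hz1 : z ^ (p ^ (k + 1)) = 1 := by
    have h1 := comm_omega hG hD hc hx (k + 1) w hw hwk
    have e : z = ⁅x, w⁆⁻¹ := by rw [hz]; simp only [commutatorElement_def]; group
    rw [e, inv_pow, h1, inv_one]
  have hzp : z ^ p ∈ M := by
    rw [hmemM]
    exact ⟨D.pow_mem hzD p, by rw [← pow_mul, ← pow_succ']; exact hz1⟩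
  have hzw : ⁅z, w⁆ ∈ M := by
    have h1 : ((⟨z, hzD⟩ : D) : D ⧸ N) ^ (p ^ 2) = 1 := by
      rw [← QuotientGroup.mk_pow, QuotientGroup.eq_one_iff, hmem]
      apply Subtype.ext
      change (z ^ (p ^ 2)) ^ (p ^ k) = 1
      rw [← pow_mul, ← pow_add]
      have : p ^ (2 + k) = p ^ (k + 1) * p := by ring
      rw [this, pow_mul, hz1, one_pow]
    have h2 := hcQ _ h1 ((⟨w, hw⟩ : D) : D ⧸ N)
    have h3 : ((⁅(⟨z, hzD⟩ : D), (⟨w, hw⟩ : D)⁆ : D) : D ⧸ N) = 1 :=
      commutatorElement_eq_one_iff_mul_comm.mpr h2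
    rw [QuotientGroup.eq_one_iff] at h3
    exact ⟨_, h3, rfl⟩
  have hzx : ⁅z, x⁆ ∈ M := by
    have h1 : ⁅x, z⁆ ^ (p ^ k) = 1 := by
      apply comm_omega hG hD hc hx k z hzD
      have : p ^ (k + 2) = p ^ (k + 1) * p := by ring
      rw [this, pow_mul, hz1, one_pow]
    have e : ⁅z, x⁆ = ⁅x, z⁆⁻¹ := by simp only [commutatorElement_def]; group
    rw [hmemM, e]
    refine ⟨?_, by rw [inv_pow, h1, inv_one]⟩
    have e2 : ⁅x, z⁆ = (x * z * x⁻¹) * z⁻¹ := by simp only [commutatorElement_def]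
    rw [e2]
    exact D.inv_mem (D.mul_mem (hD.conj_mem _ hzD x) (D.inv_mem hzD))
  -- computation in `G ⧸ M`
  have c1 : Commute ((z : G) : G ⧸ M) ((w : G) : G ⧸ M) := mem_iff_commute.mp hzw
  have c2 : Commute ((z : G) : G ⧸ M) ((x : G) : G ⧸ M) := mem_iff_commute.mp hzx
  have e1 : ((z : G) : G ⧸ M) * (((x : G) : G ⧸ M) * ((w : G) : G ⧸ M)) =
      ((w : G) : G ⧸ M) * ((x : G) : G ⧸ M) := by
    rw [← QuotientGroup.mk_mul, ← QuotientGroup.mk_mul, ← QuotientGroup.mk_mul]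
    congr 1
    rw [hz]; simp only [commutatorElement_def]; group
  have h1 := mul_pow_class_two' e1 c2 c1 (p ^ 2)
  have h2 : ((z : G) : G ⧸ M)⁻¹ ^ (p ^ 2 * (p ^ 2 - 1) / 2) = 1 := by
    obtain ⟨j, hj⟩ := dvd_tri hp.out
    have h3 : ((z : G) : G ⧸ M) ^ p = 1 := by
      rw [← QuotientGroup.mk_pow, QuotientGroup.eq_one_iff]; exact hzp
    rw [hj, pow_mul, inv_pow, h3, inv_one, one_pow]
  rw [h2, mul_one, ← QuotientGroup.mk_mul, ← QuotientGroup.mk_pow, ← QuotientGroup.mk_pow,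
    ← QuotientGroup.mk_pow, hxp, hxw, QuotientGroup.mk_one, one_mul, QuotientGroup.eq_one_iff,
    hmemM] at h1
  have h4 := h1.2
  rw [← pow_mul, ← pow_add] at h4
  rw [add_comm k 2]
  exact h4

/-- **Alperin.** If `E` is maximal among the normal abelian subgroups of exponent dividing `p ^ 2`
then `E` contains all elements of order dividing `p ^ 2` of its centraliser. -/
theorem alperin (hG : IsPGroup p G) {E : Subgroup G}
    (hE : E.Normal) (hEc : ∀ x ∈ E, ∀ y ∈ E, x * y = y * x) (hEp : ∀ x ∈ E, x ^ (p ^ 2) = 1)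
    (hmax : ∀ F : Subgroup G, F.Normal → (∀ x ∈ F, ∀ y ∈ F, x * y = y * x) →
      (∀ x ∈ F, x ^ (p ^ 2) = 1) → E ≤ F → F = E) :
    ∀ x : G, (∀ y ∈ E, x * y = y * x) → x ^ (p ^ 2) = 1 → x ∈ E := by
  by_contra hcon
  push Not at hcon
  obtain ⟨x0, hx0c, hx0p, hx0E⟩ := hcon
  let C : Subgroup G :=
    { carrier := {x | ∀ y ∈ E, x * y = y * x}
      one_mem' := by intro y _; rw [one_mul, mul_one]
      mul_mem' := by
        intro a b ha hb y hy
        rw [mul_assoc, hb y hy, ← mul_assoc, ha y hy, mul_assoc]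
      inv_mem' := by
        intro a ha y hy
        have h : Commute a y := ha y hy
        exact h.inv_left.eq }
  have hmC : ∀ x, x ∈ C ↔ ∀ y ∈ E, x * y = y * x := fun _ => Iff.rfl
  have hC : C.Normal := by
    constructor
    intro x hx g y hy
    have h1 := hx (g⁻¹ * y * g) (by simpa using hE.conj_mem y hy g⁻¹)
    calc g * x * g⁻¹ * y = g * (x * (g⁻¹ * y * g)) * g⁻¹ := by group
      _ = g * ((g⁻¹ * y * g) * x) * g⁻¹ := by rw [h1]
      _ = y * (g * x * g⁻¹) := by group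
  let S : Set (Subgroup G) := {K | K.Normal ∧ E ≤ K ∧ K ≤ C ∧ ∃ x ∈ K, x ^ (p ^ 2) = 1 ∧ x ∉ E}
  have hne : S.Nonempty := ⟨C, hC, fun x hx y hy => hEc x hx y hy, le_rfl, x0, hx0c, hx0p, hx0E⟩
  obtain ⟨K, ⟨hK, hEK, hKC, x, hxK, hxp, hxE⟩, hmin⟩ := (Set.toFinite S).exists_minimal hne
  let D : Subgroup G := ser E K 1
  have hD : D.Normal := ser_normal hE hK 1
  have hED : E ≤ D := le_ser hEK 1
  have hDK : D ≤ K := ser_succ_le hE hK hEK 0
  have hnil : Group.IsNilpotent G := hG.isNilpotent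
  have hDne : D ≠ K := by
    intro h
    have h2 : ser E K 0 = E := ser_eq_of_stable hE hEK (j := 0) h
    apply hxE
    rw [← h2]
    exact hxK
  have hDt : ∀ y ∈ D, y ^ (p ^ 2) = 1 → y ∈ E := by
    intro y hy hyp
    by_contra hyE
    have h1 : D ∈ S := ⟨hD, hED, hDK.trans hKC, y, hy, hyp, hyE⟩
    exact hDne (le_antisymm hDK (hmin h1 hDK))
  have hcD : Cen p D := by
    intro y hy z
    apply Subtype.ext
    have h1 : (y : G) ∈ E := hDt y y.2 (by simpa using congrArg Subtype.val hy)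
    exact ((hKC (hDK z.2)) y h1).symm
  have hxcE : ∀ y ∈ E, x * y = y * x := hKC hxK
  have hxD : ∀ y ∈ D, y ^ (p ^ 2) = 1 → ⁅x, y⁆ = 1 := by
    intro y hy hyp
    rw [commutatorElement_eq_one_iff_mul_comm]
    exact hxcE y (hDt y hy hyp)
  have hconj : ∀ g : G, x⁻¹ * (g * x * g⁻¹) ∈ E := by
    intro g
    set w := x⁻¹ * (g * x * g⁻¹) with hw
    have hwD : w ∈ D := by
      have e : w = ⁅x⁻¹, g⁆ := by rw [hw]; simp only [commutatorElement_def]; group
      rw [e]
      exact Subgroup.mem_sup_left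
        (Subgroup.commutator_mem_commutator (K.inv_mem hxK) (Subgroup.mem_top g))
    have hxw : (x * w) ^ (p ^ 2) = 1 := by
      have e : x * w = g * x * g⁻¹ := by rw [hw]; group
      rw [e, conj_pow, hxp, mul_one, mul_inv_cancel]
    have hdown : ∀ k : ℕ, w ^ (p ^ (k + 2)) = 1 → w ^ (p ^ 2) = 1 := by
      intro k
      induction k with
      | zero => exact id
      | succ k ih => exact fun h => ih (step_down hG hD hcD hxD hxp hwD hxw k h)
    obtain ⟨k, hk⟩ := hG w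
    apply hDt w hwD
    apply hdown k
    rw [pow_add, pow_mul, hk, one_pow]
  -- the subgroup `E ⟨x⟩`
  have hFmem : ∀ y ∈ E ⊔ Subgroup.zpowers x, ∃ e ∈ E, ∃ i : ℤ, e * x ^ i = y := by
    intro y hy
    obtain ⟨e, he, z, hz, h⟩ := (Subgroup.mem_sup_of_normal_left).mp hy
    obtain ⟨i, rfl⟩ := Subgroup.mem_zpowers_iff.mp hz
    exact ⟨e, he, i, h⟩
  have hxi : ∀ e ∈ E, ∀ i : ℤ, Commute (x ^ i) e := by
    intro e he i
    have : Commute x e := hxcE e he
    exact this.zpow_left i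
  have hF := hmax (E ⊔ Subgroup.zpowers x) ?_ ?_ ?_ le_sup_left
  · apply hxE
    rw [← hF]
    exact Subgroup.mem_sup_right (Subgroup.mem_zpowers x)
  · constructor
    intro y hy g
    obtain ⟨e, he, i, rfl⟩ := hFmem y hy
    have e1 : g * (e * x ^ i) * g⁻¹ = (g * e * g⁻¹) * (x * (x⁻¹ * (g * x * g⁻¹))) ^ i := by
      have e2 : x * (x⁻¹ * (g * x * g⁻¹)) = g * x * g⁻¹ := by group
      rw [e2, conj_zpow]
      group
    rw [e1]
    refine Subgroup.mul_mem _ (Subgroup.mem_sup_left (hE.conj_mem e he g)) ?_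
    refine Subgroup.zpow_mem _ ?_ i
    exact Subgroup.mul_mem _ (Subgroup.mem_sup_right (Subgroup.mem_zpowers x))
      (Subgroup.mem_sup_left (hconj g))
  · intro y hy z hz
    obtain ⟨e, he, i, rfl⟩ := hFmem y hy
    obtain ⟨f, hf, j, rfl⟩ := hFmem z hz
    have c1 : Commute e f := hEc e he f hf
    have c2 : Commute (x ^ i) f := hxi f hf i
    have c3 : Commute (x ^ j) e := hxi e he j
    have c4 : Commute (x ^ i) (x ^ j) := (Commute.refl x).zpow_zpow i j
    exact ((c1.mul_right c3.symm).mul_left (c2.mul_right c4)).eq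
  · intro y hy
    obtain ⟨e, he, i, rfl⟩ := hFmem y hy
    have c1 : Commute e (x ^ i) := (hxi e he i).symm
    rw [c1.mul_pow, hEp e he, one_mul, ← zpow_natCast, ← zpow_mul, mul_comm, zpow_mul,
      zpow_natCast, hxp, one_zpow]

end

end Pool.Agent.Lib.MP_b83a82_al.AF
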