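import Pool.Agent.Lib.MP_b83a82_al.AF.Alperin

/-! From bounds on normal elementary abelian subgroups to a bound on the rank. -/

namespace Pool.Agent.Lib.MP_b83a82_al.AF

open _root_.MP_b83a82_al
open scoped commutatorElement

universe u

section
variable {G : Type u} [Group G] [Finite G] {p : ℕ} [hp : Fact p.Prime]

/-- rank of `G = A B` from the rank of a normal subgroup `W` and the index of `A ∩ W` in `A`. -/
theorem rk_quot {A B : Subgroup G} (hAB : ∀ g : G, ∃ a ∈ A, ∃ b ∈ B, a * b = g)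
    {W : Subgroup G} (hWn : W.Normal) {d m c : ℕ}
    (hWrank : ∀ K0 H : Subgroup G, ElSec p K0 H → (K0 ⊓ W).relIndex (H ⊓ W) ≤ p ^ d)
    (hWA : W.relIndex A ≤ p ^ c) (hB : RkLE p B m) :
    RkLE p (⊤ : Subgroup G) (d + m + c) := by
  set T := B ⊔ W with hT
  have hTidx : T.index ≤ p ^ c := by
    rw [← Subgroup.relIndex_top_right]
    refine (relIndex_le_of_cover (U := A) le_top ?_).trans
      ((relIndex_anti_left le_sup_right A).trans hWA)
    intro t _
    obtain ⟨a, ha, b, hb, rfl⟩ := hAB t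
    refine ⟨a, ha, ?_⟩
    have : a⁻¹ * (a * b) = b := by group
    rw [this]
    exact Subgroup.mem_sup_left hb
  intro K0 H _ hKH
  have h1 := relIndex_le_sup_mul_inf hKH.1 W
  have h2 := hWrank K0 H hKH
  have h3 : (K0 ⊔ W).relIndex (H ⊔ W) ≤ ((K0 ⊔ W) ⊓ T).relIndex ((H ⊔ W) ⊓ T) * T.index :=
    relIndex_le_inf_mul_index T
  -- the section (H W) / (K0 W)
  have hsup : ElSec p (K0 ⊔ W) (H ⊔ W) := by
    refine ⟨sup_le_sup_right hKH.1 W, ?_, ?_⟩
    · intro x hx
      obtain ⟨h, hh, w, hw, rfl⟩ := (Subgroup.mem_sup_of_normal_right).mp hx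
      have e : ((h * w : G) : G ⧸ W) = (h : G ⧸ W) := by
        rw [QuotientGroup.mk_mul, (QuotientGroup.eq_one_iff _).mpr hw, mul_one]
      have e2 : (((h * w) ^ p : G) : G ⧸ W) = ((h ^ p : G) : G ⧸ W) := by
        rw [QuotientGroup.mk_pow, e, ← QuotientGroup.mk_pow]
      have e3 : (h ^ p)⁻¹ * (h * w) ^ p ∈ W := QuotientGroup.eq.mp e2.symm
      have e4 : (h * w) ^ p = h ^ p * ((h ^ p)⁻¹ * (h * w) ^ p) := by group
      rw [e4]
      exact Subgroup.mul_mem _ (Subgroup.mem_sup_left (hKH.2.1 h hh)) (Subgroup.mem_sup_right e3)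
    · intro x hx x' hx'
      obtain ⟨h, hh, w, hw, rfl⟩ := (Subgroup.mem_sup_of_normal_right).mp hx
      obtain ⟨h', hh', w', hw', rfl⟩ := (Subgroup.mem_sup_of_normal_right).mp hx'
      have e : ((h * w : G) : G ⧸ W) = (h : G ⧸ W) := by
        rw [QuotientGroup.mk_mul, (QuotientGroup.eq_one_iff _).mpr hw, mul_one]
      have e' : ((h' * w' : G) : G ⧸ W) = (h' : G ⧸ W) := by
        rw [QuotientGroup.mk_mul, (QuotientGroup.eq_one_iff _).mpr hw', mul_one]
      have e2 : ((⁅h * w, h' * w'⁆ : G) : G ⧸ W) = ((⁅h, h'⁆ : G) : G ⧸ W) := by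
        have e5 : ∀ a b : G, ((⁅a, b⁆ : G) : G ⧸ W) =
            (a : G ⧸ W) * (b : G ⧸ W) * (a : G ⧸ W)⁻¹ * (b : G ⧸ W)⁻¹ := fun a b => rfl
        rw [e5, e5, e, e']
      have e3 : ⁅h, h'⁆⁻¹ * ⁅h * w, h' * w'⁆ ∈ W := QuotientGroup.eq.mp e2.symm
      have e4 : ⁅h * w, h' * w'⁆ = ⁅h, h'⁆ * (⁅h, h'⁆⁻¹ * ⁅h * w, h' * w'⁆) := by group
      rw [e4]
      exact Subgroup.mul_mem _ (Subgroup.mem_sup_left (hKH.2.2 h hh h' hh'))
        (Subgroup.mem_sup_right e3)
  have h4 : ((K0 ⊔ W) ⊓ T).relIndex ((H ⊔ W) ⊓ T) ≤ p ^ m := by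
    have h5 : ((K0 ⊔ W) ⊓ T).relIndex ((H ⊔ W) ⊓ T) ≤
        ((K0 ⊔ W) ⊓ T).relIndex ((H ⊔ W) ⊓ B) := by
      refine relIndex_le_of_cover (inf_le_inf_left _ le_sup_left) ?_
      intro t ht
      obtain ⟨b, hb, w, hw, rfl⟩ := (Subgroup.mem_sup_of_normal_right).mp ht.2
      have hb' : b ∈ H ⊔ W := by
        have : b * w * w⁻¹ ∈ H ⊔ W :=
          Subgroup.mul_mem _ ht.1 (Subgroup.inv_mem _ (Subgroup.mem_sup_right hw))
        simpa using this
      refine ⟨b, ⟨hb', hb⟩, ?_⟩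
      have : b⁻¹ * (b * w) = w := by group
      rw [this]
      exact ⟨Subgroup.mem_sup_right hw, Subgroup.mem_sup_right hw⟩
    refine h5.trans ?_
    have h6 : ((K0 ⊔ W) ⊓ T).relIndex ((H ⊔ W) ⊓ B) ≤
        ((K0 ⊔ W) ⊓ B).relIndex ((H ⊔ W) ⊓ B) :=
      relIndex_anti_left (inf_le_inf_left _ le_sup_left) _
    exact h6.trans (hB _ _ inf_le_right (hsup.inf B))
  calc K0.relIndex H ≤ (K0 ⊔ W).relIndex (H ⊔ W) * (K0 ⊓ W).relIndex (H ⊓ W) := h1
    _ ≤ (p ^ m * p ^ c) * p ^ d :=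
        Nat.mul_le_mul (h3.trans (Nat.mul_le_mul h4 hTidx)) h2
    _ = p ^ (d + m + c) := by rw [← pow_add, ← pow_add]; congr 1; ring

/-- the centraliser, as `actS`. -/
theorem act_bot {g : G} {X : Subgroup G} :
    Act g X ⊥ ↔ ∀ y ∈ X, g * y = y * g := by
  constructor
  · intro h y hy
    exact commutatorElement_eq_one_iff_mul_comm.mp (Subgroup.mem_bot.mp (h y hy))
  · intro h y hy
    rw [Subgroup.mem_bot, commutatorElement_eq_one_iff_mul_comm]
    exact h y hy

theorem actS_normal {X Z : Subgroup G} (hX : X.Normal) (hZ : Z.Normal) :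
    (actS X Z hZ).Normal := by
  constructor
  intro g hg c u hu
  have hu' : c⁻¹ * u * c ∈ X := by simpa using hX.conj_mem u hu c⁻¹
  have h1 := hg _ hu'
  have e : ⁅c * g * c⁻¹, u⁆ = c * ⁅g, c⁻¹ * u * c⁆ * c⁻¹ := by
    simp only [commutatorElement_def]; group
  rw [e]
  exact hZ.conj_mem _ h1 c

/-- existence of a maximal normal abelian subgroup of exponent dividing `p ^ 2`. -/
theorem exists_max (G : Type u) [Group G] [Finite G] (p : ℕ) :
    ∃ E : Subgroup G, E.Normal ∧ (∀ x ∈ E, ∀ y ∈ E, x * y = y * x) ∧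
      (∀ x ∈ E, x ^ (p ^ 2) = 1) ∧
      ∀ F : Subgroup G, F.Normal → (∀ x ∈ F, ∀ y ∈ F, x * y = y * x) →
        (∀ x ∈ F, x ^ (p ^ 2) = 1) → E ≤ F → F = E := by
  let S : Set (Subgroup G) := {E | E.Normal ∧ (∀ x ∈ E, ∀ y ∈ E, x * y = y * x) ∧
    ∀ x ∈ E, x ^ (p ^ 2) = 1}
  have hne : S.Nonempty := by
    refine ⟨⊥, inferInstance, ?_, ?_⟩
    · intro x hx y hy
      rw [Subgroup.mem_bot.mp hx, Subgroup.mem_bot.mp hy]
    · intro x hx
      rw [Subgroup.mem_bot.mp hx, one_pow]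
  obtain ⟨E, hE, hmax⟩ := (Set.toFinite S).exists_maximal hne
  refine ⟨E, hE.1, hE.2.1, hE.2.2, ?_⟩
  intro F h1 h2 h3 h4
  exact le_antisymm (hmax (show F ∈ S from ⟨h1, h2, h3⟩) h4) h4

/-- **Assembly.** If every normal elementary abelian subgroup `V` of `G = A B` has order at most
`p ^ n` and satisfies `|A : C_A(V)| ≤ p ^ c`, then the rank of `G` is at most `n + b + (a + c)`. -/
theorem rk_of_action (hG : IsPGroup p G) {A B : Subgroup G}
    (hAB : ∀ g : G, ∃ x ∈ A, ∃ y ∈ B, x * y = g) {n a b c : ℕ}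
    (ha : RkLE p A a) (hb : RkLE p B b)
    (hn : ∀ V : Subgroup G, V.Normal → (∀ x ∈ V, ∀ y ∈ V, x * y = y * x) →
      (∀ x ∈ V, x ^ p = 1) → Nat.card V ≤ p ^ n ∧
        (actS V ⊥ inferInstance).relIndex A ≤ p ^ c) :
    RkLE p (⊤ : Subgroup G) (n + b + (a + c)) := by
  obtain ⟨E, hE, hEc, hEp, hmax⟩ := exists_max G p
  have halp := alperin hG hE hEc hEp hmax
  -- the subgroup of elements of order dividing `p`
  let V : Subgroup G :=
    { carrier := {x | x ∈ E ∧ x ^ p = 1}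
      one_mem' := ⟨E.one_mem, one_pow p⟩
      mul_mem' := by
        rintro x y ⟨hx, hx'⟩ ⟨hy, hy'⟩
        refine ⟨E.mul_mem hx hy, ?_⟩
        have h1 : Commute x y := hEc x hx y hy
        rw [h1.mul_pow, hx', hy', one_mul]
      inv_mem' := by
        rintro x ⟨hx, hx'⟩
        exact ⟨E.inv_mem hx, by rw [inv_pow, hx', inv_one]⟩ }
  have hmV : ∀ x, x ∈ V ↔ x ∈ E ∧ x ^ p = 1 := fun _ => Iff.rfl
  have hV : V.Normal := by
    constructor
    intro x hx g
    exact ⟨hE.conj_mem _ hx.1 g, by rw [conj_pow, hx.2, mul_one, mul_inv_cancel]⟩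
  obtain ⟨hVn, hVc⟩ := hn V hV (fun x hx y hy => hEc x hx.1 y hy.1) (fun x hx => hx.2)
  have hbn : (⊥ : Subgroup G).Normal := inferInstance
  let W : Subgroup G := actS E ⊥ hbn
  have hWn : W.Normal := actS_normal hE hbn
  have hmW : ∀ g, g ∈ W ↔ ∀ y ∈ E, g * y = y * g := fun g => act_bot
  have hcW : Cen p W := by
    intro x hx y
    apply Subtype.ext
    have h1 : (x : G) ∈ E := by
      apply halp x ((hmW _).mp x.2)
      simpa using congrArg Subtype.val hx
    exact ((hmW _).mp y.2 x h1).symm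
  have hWrank : ∀ K0 H : Subgroup G, ElSec p K0 H → (K0 ⊓ W).relIndex (H ⊓ W) ≤ p ^ n := by
    intro K0 H hKH
    have h1 := hKH.inf W
    have h2 : ElSec p ((K0 ⊓ W).subgroupOf W) ((H ⊓ W).subgroupOf W) := by
      refine ⟨?_, ?_, ?_⟩
      · intro x hx
        exact h1.1 hx
      · intro x hx
        exact h1.2.1 _ hx
      · intro x hx y hy
        exact h1.2.2 _ hx _ hy
    have h3 := cen_section (hG.to_subgroup W) hcW h2
    rw [Subgroup.relIndex_subgroupOf inf_le_right] at h3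
    refine h3.trans (le_trans ?_ hVn)
    refine Nat.card_le_card_of_injective
      (fun x : {x : W // x ^ p = 1} => (⟨(x.1 : G), ?_⟩ : V)) ?_
    · have hx : ((x.1 : W) : G) ^ p = 1 := by simpa using congrArg Subtype.val x.2
      refine ⟨?_, hx⟩
      apply halp _ ((hmW _).mp x.1.2)
      rw [pow_two, pow_mul, hx, one_pow]
    · intro x y hxy
      have := congrArg Subtype.val hxy
      exact Subtype.ext (Subtype.ext this)
  have hWA : W.relIndex A ≤ p ^ (a + c) := by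
    let V' : Subgroup G := actS V ⊥ hbn
    have hWV : W ≤ V' := by
      intro g hg u hu
      exact hg u hu.1
    have hact : ∀ g ∈ V', Act g E V := by
      intro g hg u hu
      have h1 : ⁅g, u⁆ ∈ E := by
        have e : ⁅g, u⁆ = (g * u * g⁻¹) * u⁻¹ := by simp only [commutatorElement_def]
        rw [e]
        exact E.mul_mem (hE.conj_mem _ hu g) (E.inv_mem hu)
      refine ⟨h1, ?_⟩
      have h2 : u ^ p ∈ V := ⟨E.pow_mem hu p, by rw [← pow_mul, ← pow_two]; exact hEp u hu⟩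
      have h3 : g * u ^ p = u ^ p * g := act_bot.mp hg _ h2
      have h4 : ⁅g, u⁆ ^ p = (g * u * g⁻¹) ^ p * (u⁻¹) ^ p := by
        have e : ⁅g, u⁆ = (g * u * g⁻¹) * u⁻¹ := by simp only [commutatorElement_def]
        rw [e]
        have : Commute (g * u * g⁻¹) u⁻¹ := hEc _ (hE.conj_mem _ hu g) _ (E.inv_mem hu)
        exact this.mul_pow p
      rw [h4, conj_pow, h3, inv_pow]
      group
    have hel : ElSec p (W ⊓ A) (V' ⊓ A) := by
      refine ⟨inf_le_inf_right A hWV, ?_, ?_⟩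
      · intro g hg
        refine ⟨?_, A.pow_mem hg.2 p⟩
        exact two_step_pow (X := E) (Z := V) (Y := ⊥) (fun z hz => Subgroup.mem_bot.mpr hz.2)
          (hact g hg.1) hg.1
      · intro g hg h hh
        refine ⟨?_, ?_⟩
        · exact two_step_comm (X := E) (Z := V) (Y := ⊥)
            (fun z hz z' hz' => by
              rw [Subgroup.mem_bot, commutatorElement_eq_one_iff_mul_comm]
              exact hEc z hz.1 z' hz'.1)
            (hact g hg.1) hg.1 (hact h hh.1) hh.1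
        · simp only [commutatorElement_def]
          exact A.mul_mem (A.mul_mem (A.mul_mem hg.2 hh.2) (A.inv_mem hg.2)) (A.inv_mem hh.2)
    have h1 : (W ⊓ A).relIndex (V' ⊓ A) ≤ p ^ a := ha _ _ inf_le_right hel
    have h2 : (W ⊓ A).relIndex (V' ⊓ A) * (V' ⊓ A).relIndex A = (W ⊓ A).relIndex A :=
      Subgroup.relIndex_mul_relIndex _ _ _ (inf_le_inf_right A hWV) inf_le_right
    rw [← Subgroup.inf_relIndex_right, ← h2, pow_add]
    refine Nat.mul_le_mul h1 ?_
    rw [Subgroup.inf_relIndex_right]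
    exact hVc
  exact rk_quot hAB hWn hWrank hWA hb

end

end Pool.Agent.Lib.MP_b83a82_al.AF
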