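import Mathlib.Algebra.Algebra.Unitization
import Mathlib.Algebra.CharP.Lemmas
import Mathlib.Algebra.CharP.Algebra
import Mathlib.Algebra.Module.ZMod
import Mathlib.GroupTheory.Index
import Mathlib.Tactic

/-! Bijective cocycles of a commutative group with values in an elementary abelian group. -/

namespace Pool.Agent.Lib.MP_b83a82_al.AF

universe u v

/-- card form of the algebra statement -/
def AlgCard (p C : ℕ) [Fact p.Prime] : Prop :=
  ∀ (M : Type u) [NonUnitalCommRing M] [Module (ZMod p) M] [IsScalarTower (ZMod p) M M]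
    [SMulCommClass (ZMod p) M M] [Finite M],
    (∀ x : M, ∃ k : ℕ, (Unitization.inr x : Unitization (ZMod p) M) ^ (p ^ k) = 0) →
    Nat.card M ≤ (Nat.card {x : M // (Unitization.inr x : Unitization (ZMod p) M) ^ p = 0}) ^ C

section
variable {p C : ℕ} [Fact p.Prime] {A : Type v} [CommGroup A] {M : Type u} [AddCommGroup M]
  (α : A → M →+ M) (δ : A → M)

theorem cocycle_bound [Finite M] (hAlg : AlgCard.{u} p C) (hpM : ∀ x : M, p • x = 0)
    (hA : ∀ a : A, ∃ k : ℕ, a ^ (p ^ k) = 1)
    (hδ : ∀ a b, δ (a * b) = δ a + α a (δ b)) (hs : Function.Surjective δ) :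
    ∃ s : M → A, (∀ x, δ (s x) = x) ∧
      Nat.card M ≤ (Nat.card {x : M // δ (s x ^ p) = 0}) ^ C := by
  have h1 : δ 1 = 0 := by
    have h := hδ 1 1
    rw [mul_one] at h
    obtain ⟨x, hx⟩ := hs 0
    have h2 := hδ 1 x
    rw [one_mul, hx] at h2
    simpa using h2.symm
  -- the ring structure
  let s : M → A := Function.surjInv hs
  have hsd : ∀ x, δ (s x) = x := Function.surjInv_eq hs
  have hcomm : ∀ a b, α a (δ b) - δ b = α b (δ a) - δ a := by
    intro a b
    have h2 : δ a + α a (δ b) = δ b + α b (δ a) := by rw [← hδ, ← hδ, mul_comm]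
    have h3 : α a (δ b) = δ b + α b (δ a) - δ a := by rw [← h2]; abel
    rw [h3]; abel
  have hmulα : ∀ a b x, α (a * b) x = α a (α b x) := by
    intro a b x
    obtain ⟨c, rfl⟩ := hs x
    have h2 := hδ (a * b) c
    have h3 := hδ a (b * c)
    rw [hδ b c, map_add, ← mul_assoc, h2, hδ a b, add_assoc] at h3
    exact add_left_cancel (add_left_cancel h3)
  let mu : M → M → M := fun x y => α (s x) y - y
  have hmu : ∀ a b, mu (δ a) (δ b) = α a (δ b) - δ b := by
    intro a b
    change α (s (δ a)) (δ b) - δ b = _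
    rw [hcomm, hsd, hcomm]
  have hmu' : ∀ a x, mu (δ a) x = α a x - x := by
    intro a x
    obtain ⟨b, rfl⟩ := hs x
    exact hmu a b
  have mcomm : ∀ x y, mu x y = mu y x := by
    intro x y
    obtain ⟨a, rfl⟩ := hs x
    obtain ⟨b, rfl⟩ := hs y
    rw [hmu, hmu, hcomm]
  have madd : ∀ x y z, mu x (y + z) = mu x y + mu x z := by
    intro x y z
    change α (s x) (y + z) - (y + z) = (α (s x) y - y) + (α (s x) z - z)
    rw [map_add]; abel
  have madd' : ∀ x y z, mu (x + y) z = mu x z + mu y z := by
    intro x y z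
    rw [mcomm, madd, mcomm z x, mcomm z y]
  have mzero : ∀ x, mu x 0 = 0 := by
    intro x
    change α (s x) 0 - 0 = 0
    rw [map_zero, sub_zero]
  have mzero' : ∀ x, mu 0 x = 0 := by
    intro x
    rw [mcomm, mzero]
  have hprod : ∀ a b, δ (a * b) = δ a + δ b + mu (δ a) (δ b) := by
    intro a b
    rw [hδ, hmu]; abel
  have massoc : ∀ x y z, mu (mu x y) z = mu x (mu y z) := by
    intro x y z
    obtain ⟨a, rfl⟩ := hs x
    obtain ⟨b, rfl⟩ := hs y
    have e1 : mu (δ (a * b)) z = α a (α b z) - z := by rw [hmu', hmulα]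
    rw [hprod, madd', madd'] at e1
    have e2 : mu (δ a) (mu (δ b) z) = α a (α b z) - α a z - (α b z - z) := by
      rw [hmu' a, hmu' b, map_sub]
    rw [hmu' a, hmu' b] at e1
    rw [e2]
    have e3 : mu (mu (δ a) (δ b)) z = α a (α b z) - z - (α a z - z + (α b z - z)) := by
      rw [← e1]; abel
    rw [e3]; abel
  let ring : NonUnitalCommRing M :=
    { (inferInstance : AddCommGroup M) with
      mul := mu
      left_distrib := madd
      right_distrib := madd'
      zero_mul := mzero'
      mul_zero := mzero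
      mul_assoc := massoc
      mul_comm := mcomm }
  let md : Module (ZMod p) M := AddCommGroup.zmodModule hpM
  have i1 : IsScalarTower (ZMod p) M M := by
    constructor
    intro c x y
    exact ZMod.map_smul (AddMonoidHom.mulRight y) c x
  have i2 : SMulCommClass (ZMod p) M M := by
    constructor
    intro c x y
    exact (ZMod.map_smul (AddMonoidHom.mulLeft x) c y).symm
  have hmul : ∀ x y : M, x * y = mu x y := fun _ _ => rfl
  have i3 : CharP (Unitization (ZMod p) M) p :=
    charP_of_injective_algebraMap (algebraMap (ZMod p) (Unitization (ZMod p) M)).injective p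
  let φ : A →* Unitization (ZMod p) M :=
    { toFun := fun a => 1 + Unitization.inr (δ a)
      map_one' := by rw [h1, Unitization.inr_zero, add_zero]
      map_mul' := by
        intro a b
        rw [hprod, ← hmul, Unitization.inr_add, Unitization.inr_add, Unitization.inr_mul]
        ring }
  have hφ : ∀ a, φ a = 1 + Unitization.inr (δ a) := fun _ => rfl
  have hpow : ∀ a k, (Unitization.inr (δ a) : Unitization (ZMod p) M) ^ p ^ k =
      Unitization.inr (δ (a ^ p ^ k)) := by
    intro a k
    have e1 : (Unitization.inr (δ a) : Unitization (ZMod p) M) = φ a - 1 := by rw [hφ]; ring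
    rw [e1, sub_pow_char_pow, one_pow, ← map_pow, hφ]
    ring
  refine ⟨s, hsd, ?_⟩
  refine (hAlg M ?_).trans (le_of_eq ?_)
  · intro x
    obtain ⟨a, rfl⟩ := hs x
    obtain ⟨k, hk⟩ := hA a
    refine ⟨k, ?_⟩
    rw [hpow, hk, h1, Unitization.inr_zero]
  · congr 1
    refine Nat.card_congr (Equiv.subtypeEquivRight ?_)
    intro x
    have e := hpow (s x) 1
    rw [hsd, pow_one] at e
    rw [e]
    constructor
    · intro h
      exact Unitization.inr_injective (h.trans (Unitization.inr_zero _).symm)
    · intro h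
      rw [h, Unitization.inr_zero]

end

end Pool.Agent.Lib.MP_b83a82_al.AF
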