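import Mathlib.GroupTheory.Commutator.Basic
import Mathlib.GroupTheory.QuotientGroup.Basic
import Mathlib.GroupTheory.Index
import Mathlib.Tactic

/-! A product of two commutative subgroups is metabelian. -/

namespace Pool.Agent.Lib.MP_b83a82_al.AF

open scoped commutatorElement

variable {G : Type*} [Group G] {A B : Subgroup G}

/-- the subgroup generated by the commutators of elements of `A` with elements of `B`. -/
def mixed (A B : Subgroup G) : Subgroup G :=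
  Subgroup.closure {x | ∃ a ∈ A, ∃ b ∈ B, x = ⁅a, b⁆}

theorem mem_mixed {a b : G} (ha : a ∈ A) (hb : b ∈ B) : ⁅a, b⁆ ∈ mixed A B :=
  Subgroup.subset_closure ⟨a, ha, b, hb, rfl⟩

theorem conjA {a' : G} (ha' : a' ∈ A) {x : G} (hx : x ∈ mixed A B) :
    a' * x * a'⁻¹ ∈ mixed A B := by
  induction hx using Subgroup.closure_induction with
  | mem x hx =>
    obtain ⟨a, ha, b, hb, rfl⟩ := hx
    have e : a' * ⁅a, b⁆ * a'⁻¹ = ⁅a' * a, b⁆ * ⁅a', b⁆⁻¹ := by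
      simp only [commutatorElement_def]; group
    rw [e]
    exact (mixed A B).mul_mem (mem_mixed (A.mul_mem ha' ha) hb)
      ((mixed A B).inv_mem (mem_mixed ha' hb))
  | one => simp
  | mul x y _ _ hx hy =>
    have e : a' * (x * y) * a'⁻¹ = (a' * x * a'⁻¹) * (a' * y * a'⁻¹) := by group
    rw [e]; exact (mixed A B).mul_mem hx hy
  | inv x _ hx =>
    have e : a' * x⁻¹ * a'⁻¹ = (a' * x * a'⁻¹)⁻¹ := by group
    rw [e]; exact (mixed A B).inv_mem hx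

theorem conjB {b' : G} (hb' : b' ∈ B) {x : G} (hx : x ∈ mixed A B) :
    b' * x * b'⁻¹ ∈ mixed A B := by
  induction hx using Subgroup.closure_induction with
  | mem x hx =>
    obtain ⟨a, ha, b, hb, rfl⟩ := hx
    have e : b' * ⁅a, b⁆ * b'⁻¹ = ⁅a, b'⁆⁻¹ * ⁅a, b' * b⁆ := by
      simp only [commutatorElement_def]; group
    rw [e]
    exact (mixed A B).mul_mem ((mixed A B).inv_mem (mem_mixed ha hb'))
      (mem_mixed ha (B.mul_mem hb' hb))
  | one => simp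
  | mul x y _ _ hx hy =>
    have e : b' * (x * y) * b'⁻¹ = (b' * x * b'⁻¹) * (b' * y * b'⁻¹) := by group
    rw [e]; exact (mixed A B).mul_mem hx hy
  | inv x _ hx =>
    have e : b' * x⁻¹ * b'⁻¹ = (b' * x * b'⁻¹)⁻¹ := by group
    rw [e]; exact (mixed A B).inv_mem hx

variable (hAB : ∀ g : G, ∃ x ∈ A, ∃ y ∈ B, x * y = g)
include hAB

theorem mixed_normal : (mixed A B).Normal := by
  constructor
  intro n hn g
  obtain ⟨x, hx, y, hy, rfl⟩ := hAB g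
  have e : x * y * n * (x * y)⁻¹ = x * (y * n * y⁻¹) * x⁻¹ := by group
  rw [e]
  exact conjA hx (conjB hy hn)

theorem gens_commute (hA : ∀ x ∈ A, ∀ y ∈ A, x * y = y * x)
    (hB : ∀ x ∈ B, ∀ y ∈ B, x * y = y * x) {a b c d : G} (ha : a ∈ A) (hb : b ∈ B)
    (hc : c ∈ A) (hd : d ∈ B) : ⁅a, b⁆ * ⁅c, d⁆ = ⁅c, d⁆ * ⁅a, b⁆ := by
  -- it is enough to treat the inverses of `c` and `d`
  have main : ∀ c ∈ A, ∀ d ∈ B, c * d * ⁅a, b⁆ * (c * d)⁻¹ = d * c * ⁅a, b⁆ * (d * c)⁻¹ := by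
    intro c hc d hd
    obtain ⟨a₁, ha₁, b₂, hb₂, h1⟩ := hAB (d * a * d⁻¹)
    obtain ⟨a₃, ha₃, b₃, hb₃, h3⟩ := hAB (c * b⁻¹ * c⁻¹)
    -- c b c⁻¹ = b₃⁻¹ a₃⁻¹
    have h3' : c * b * c⁻¹ = b₃⁻¹ * a₃⁻¹ := by
      have : (c * b⁻¹ * c⁻¹)⁻¹ = b₃⁻¹ * a₃⁻¹ := by rw [← h3]; group
      rw [← this]; group
    have k1 : ∀ y ∈ B, d * ⁅a, y⁆ * d⁻¹ = ⁅a₁, y⁆ := by
      intro y hy
      have e1 : d * ⁅a, y⁆ * d⁻¹ = ⁅d * a * d⁻¹, y⁆ := by
        have e2 : d * ⁅a, y⁆ * d⁻¹ = (d * a * d⁻¹) * (d * y * d⁻¹) * (d * a * d⁻¹)⁻¹ *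
            (d * y * d⁻¹)⁻¹ := by simp only [commutatorElement_def]; group
        rw [e2, hB d hd y hy]
        simp only [commutatorElement_def]; group
      rw [e1, ← h1]
      have e3 : ⁅a₁ * b₂, y⁆ = a₁ * (b₂ * y) * b₂⁻¹ * a₁⁻¹ * y⁻¹ := by
        simp only [commutatorElement_def]; group
      rw [e3, hB b₂ hb₂ y hy]
      simp only [commutatorElement_def]; group
    have k2 : ∀ x ∈ A, c * ⁅x, b⁆ * c⁻¹ = ⁅x, b₃⁻¹⁆ := by
      intro x hx
      have e1 : c * ⁅x, b⁆ * c⁻¹ = ⁅x, c * b * c⁻¹⁆ := by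
        have e2 : c * ⁅x, b⁆ * c⁻¹ = (c * x * c⁻¹) * (c * b * c⁻¹) * (c * x * c⁻¹)⁻¹ *
            (c * b * c⁻¹)⁻¹ := by simp only [commutatorElement_def]; group
        rw [e2, hA c hc x hx]
        simp only [commutatorElement_def]; group
      rw [e1, h3']
      have e3 : ⁅x, b₃⁻¹ * a₃⁻¹⁆ = x * b₃⁻¹ * (a₃⁻¹ * x⁻¹) * a₃ * b₃ := by
        simp only [commutatorElement_def]; group
      rw [e3, hA a₃⁻¹ (A.inv_mem ha₃) x⁻¹ (A.inv_mem hx)]
      simp only [commutatorElement_def]; group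
    have e4 : c * d * ⁅a, b⁆ * (c * d)⁻¹ = c * (d * ⁅a, b⁆ * d⁻¹) * c⁻¹ := by group
    have e5 : d * c * ⁅a, b⁆ * (d * c)⁻¹ = d * (c * ⁅a, b⁆ * c⁻¹) * d⁻¹ := by group
    rw [e4, e5, k1 b hb, k2 a₁ ha₁, k2 a ha, k1 b₃⁻¹ (B.inv_mem hb₃)]
  have h := main c⁻¹ (A.inv_mem hc) d⁻¹ (B.inv_mem hd)
  generalize ⁅a, b⁆ = X at h ⊢
  rw [commutatorElement_def]
  -- c⁻¹ d⁻¹ X d c = d⁻¹ c⁻¹ X c d
  have e6 : c * d * (c⁻¹ * d⁻¹ * X * (c⁻¹ * d⁻¹)⁻¹) * (c * d)⁻¹ =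
      c * d * (d⁻¹ * c⁻¹ * X * (d⁻¹ * c⁻¹)⁻¹) * (c * d)⁻¹ := by rw [h]
  have e7 : c * d * (d⁻¹ * c⁻¹ * X * (d⁻¹ * c⁻¹)⁻¹) * (c * d)⁻¹ = X := by group
  rw [e7] at e6
  have e8 : c * d * (c⁻¹ * d⁻¹ * X * (c⁻¹ * d⁻¹)⁻¹) * (c * d)⁻¹ =
      (c * d * c⁻¹ * d⁻¹) * X * (c * d * c⁻¹ * d⁻¹)⁻¹ := by group
  rw [e8] at e6
  exact (mul_inv_eq_iff_eq_mul.mp e6).symm

theorem mixed_comm (hA : ∀ x ∈ A, ∀ y ∈ A, x * y = y * x)
    (hB : ∀ x ∈ B, ∀ y ∈ B, x * y = y * x) :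
    ∀ x ∈ mixed A B, ∀ y ∈ mixed A B, x * y = y * x := by
  have h1 : mixed A B ≤ Subgroup.centralizer {x | ∃ a ∈ A, ∃ b ∈ B, x = ⁅a, b⁆} := by
    rw [mixed, Subgroup.closure_le]
    rintro x ⟨a, ha, b, hb, rfl⟩
    rw [SetLike.mem_coe, Subgroup.mem_centralizer_iff]
    rintro y ⟨c, hc, d, hd, rfl⟩
    exact gens_commute hAB hA hB hc hd ha hb
  intro x hx y hy
  have h2 : mixed A B ≤ Subgroup.centralizer {x} := by
    rw [mixed, Subgroup.closure_le]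
    rintro z hz
    rw [SetLike.mem_coe, Subgroup.mem_centralizer_iff]
    rintro w hw
    rw [Set.mem_singleton_iff.mp hw]
    exact (Subgroup.mem_centralizer_iff.mp (h1 hx) z hz).symm
  exact Subgroup.mem_centralizer_iff.mp (h2 hy) x (Set.mem_singleton x)

theorem comm_mem_mixed (hA : ∀ x ∈ A, ∀ y ∈ A, x * y = y * x)
    (hB : ∀ x ∈ B, ∀ y ∈ B, x * y = y * x) (x y : G) : ⁅x, y⁆ ∈ mixed A B := by
  have hN := mixed_normal hAB
  have key : ∀ a ∈ A, ∀ b ∈ B, (QuotientGroup.mk (a * b) : G ⧸ mixed A B) =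
      QuotientGroup.mk (b * a) := by
    intro a ha b hb
    rw [QuotientGroup.eq]
    have e : (a * b)⁻¹ * (b * a) = ⁅b⁻¹, a⁻¹⁆ := by
      simp only [commutatorElement_def]; group
    rw [e, ← commutatorElement_inv]
    exact (mixed A B).inv_mem (mem_mixed (A.inv_mem ha) (B.inv_mem hb))
  obtain ⟨a, ha, b, hb, rfl⟩ := hAB x
  obtain ⟨c, hc, d, hd, rfl⟩ := hAB y
  rw [← QuotientGroup.eq_one_iff]
  have h1 : (QuotientGroup.mk (a * b * (c * d)) : G ⧸ mixed A B) =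
      QuotientGroup.mk (c * d * (a * b)) := by
    have e1 := key c hc b hb
    have e2 := key a ha d hd
    simp only [QuotientGroup.mk_mul] at e1 e2 ⊢
    have f1 : (QuotientGroup.mk a : G ⧸ mixed A B) * QuotientGroup.mk c =
        QuotientGroup.mk c * QuotientGroup.mk a := by
      rw [← QuotientGroup.mk_mul, ← QuotientGroup.mk_mul, hA a ha c hc]
    have f2 : (QuotientGroup.mk b : G ⧸ mixed A B) * QuotientGroup.mk d =
        QuotientGroup.mk d * QuotientGroup.mk b := by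
      rw [← QuotientGroup.mk_mul, ← QuotientGroup.mk_mul, hB b hb d hd]
    calc (QuotientGroup.mk a : G ⧸ mixed A B) * QuotientGroup.mk b *
          (QuotientGroup.mk c * QuotientGroup.mk d)
        = QuotientGroup.mk a * (QuotientGroup.mk b * QuotientGroup.mk c) *
          QuotientGroup.mk d := by group
      _ = (QuotientGroup.mk a * QuotientGroup.mk c) * (QuotientGroup.mk b *
          QuotientGroup.mk d) := by rw [← e1]; group
      _ = QuotientGroup.mk c * (QuotientGroup.mk a * QuotientGroup.mk d) *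
          QuotientGroup.mk b := by rw [f1, f2]; group
      _ = QuotientGroup.mk c * QuotientGroup.mk d *
          (QuotientGroup.mk a * QuotientGroup.mk b) := by rw [e2]; group
  rw [commutatorElement_def, QuotientGroup.mk_mul, QuotientGroup.mk_mul, h1]
  simp only [QuotientGroup.mk_mul, QuotientGroup.mk_inv]
  group

end Pool.Agent.Lib.MP_b83a82_al.AF
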