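import Pool.Agent.Lib.MP_b83a82_al.AF.Normal
import Pool.Agent.Lib.MP_b83a82_al.AF.Ito

/-! Linear bound for the rank of a product of two commutative subgroups. -/

namespace Pool.Agent.Lib.MP_b83a82_al.AF

open _root_.MP_b83a82_al
open scoped commutatorElement

universe u

/-- in a finite commutative group, `|Q : Q^n| = |Q[n]|`. -/
theorem index_range_pow {Q : Type*} [CommGroup Q] [Finite Q] (n : ℕ) :
    (powMonoidHom n : Q →* Q).range.index = Nat.card (powMonoidHom n : Q →* Q).ker := by
  have h1 := (powMonoidHom n : Q →* Q).range.card_mul_index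
  have h2 := Subgroup.card_mul_index (powMonoidHom n : Q →* Q).ker
  rw [Subgroup.index_ker] at h2
  have h3 : 0 < Nat.card (powMonoidHom n : Q →* Q).range := Nat.card_pos
  have h4 : Nat.card (powMonoidHom n : Q →* Q).range * (powMonoidHom n : Q →* Q).range.index =
      Nat.card (powMonoidHom n : Q →* Q).range * Nat.card (powMonoidHom n : Q →* Q).ker := by
    rw [h1, ← h2]
    exact mul_comm _ _
  exact Nat.eq_of_mul_eq_mul_left h3 h4

/-- sections of exponent `n` of a finite commutative group. -/
theorem relIndex_le_ker {Q : Type*} [CommGroup Q] [Finite Q] {n : ℕ} {K H : Subgroup Q}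
    (hp : ∀ h ∈ H, h ^ n ∈ K) :
    K.relIndex H ≤ Nat.card (powMonoidHom n : Q →* Q).ker := by
  have h1 : (powMonoidHom n : H →* H).range ≤ K.subgroupOf H := by
    rintro x ⟨y, rfl⟩
    rw [Subgroup.mem_subgroupOf]
    exact hp y y.2
  have h2 : K.relIndex H ≤ (powMonoidHom n : H →* H).range.index := by
    rw [Subgroup.relIndex]
    exact Nat.le_of_dvd (Nat.pos_of_ne_zero Subgroup.FiniteIndex.index_ne_zero)
      (Subgroup.index_dvd_of_le h1)
  refine h2.trans ?_
  rw [index_range_pow]
  refine Nat.card_le_card_of_injective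
    (fun x : (powMonoidHom n : H →* H).ker => (⟨((x : H) : Q), ?_⟩ :
      (powMonoidHom n : Q →* Q).ker)) ?_
  · have := x.2
    rw [MonoidHom.mem_ker] at this ⊢
    have h3 := congrArg (Subtype.val) this
    simpa using h3
  · intro x y hxy
    have := congrArg Subtype.val hxy
    exact Subtype.ext (Subtype.ext this)

variable {G : Type u} [Group G]

theorem rk_abelian [Finite G] {p C a b : ℕ} [hp : Fact p.Prime] (hG : IsPGroup p G)
    (hAlg : AlgCard.{u} p (C + 1)) {A B : Subgroup G}
    (hAB : ∀ g : G, ∃ x ∈ A, ∃ y ∈ B, x * y = g)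
    (hA : ∀ x ∈ A, ∀ y ∈ A, x * y = y * x) (hB : ∀ x ∈ B, ∀ y ∈ B, x * y = y * x)
    (ha : RkLE p A a) (hb : RkLE p B b) :
    RkLE p (⊤ : Subgroup G) (2 * a + 2 * b + C * min a b) := by
  intro K H _ hS
  let N : Subgroup G := mixed A B
  have hN : N.Normal := mixed_normal hAB
  have hNc : ∀ x ∈ N, ∀ y ∈ N, x * y = y * x := mixed_comm hAB hA hB
  have hcN : ∀ x y : G, ⁅x, y⁆ ∈ N := comm_mem_mixed hAB hA hB
  have h0 := relIndex_le_sup_mul_inf (K := K) (H := H) hS.1 N
  -- the part inside `N`
  have h1 : (K ⊓ N).relIndex (H ⊓ N) ≤ p ^ (a + b + C * min a b) := by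
    let cN : CommGroup N :=
      { (inferInstance : Group N) with
        mul_comm := fun x y => Subtype.ext (hNc x x.2 y y.2) }
    let V : Subgroup G :=
      { carrier := {x | x ∈ N ∧ x ^ p = 1}
        one_mem' := ⟨N.one_mem, one_pow p⟩
        mul_mem' := by
          rintro x y ⟨hx, hx'⟩ ⟨hy, hy'⟩
          refine ⟨N.mul_mem hx hy, ?_⟩
          have h1 : Commute x y := hNc x hx y hy
          rw [h1.mul_pow, hx', hy', one_mul]
        inv_mem' := by
          rintro x ⟨hx, hx'⟩
          exact ⟨N.inv_mem hx, by rw [inv_pow, hx', inv_one]⟩ }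
    have hmV : ∀ x, x ∈ V ↔ x ∈ N ∧ x ^ p = 1 := fun _ => Iff.rfl
    have hV : V.Normal := by
      constructor
      intro x hx g
      exact ⟨hN.conj_mem _ hx.1 g, by rw [conj_pow, hx.2, mul_one, mul_inv_cancel]⟩
    have hVc : ∀ x ∈ V, ∀ y ∈ V, x * y = y * x := fun x hx y hy => hNc x hx.1 y hy.1
    have hVp : ∀ x ∈ V, x ^ p = 1 := fun x hx => hx.2
    have hBA : ∀ g : G, ∃ x ∈ B, ∃ y ∈ A, x * y = g := by
      intro g
      obtain ⟨x, hx, y, hy, h⟩ := hAB g⁻¹
      exact ⟨y⁻¹, B.inv_mem hy, x⁻¹, A.inv_mem hx, by rw [← mul_inv_rev, h, inv_inv]⟩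
    have e1 : Nat.card V ≤ p ^ (a + b + C * min a b) := by
      rcases le_total a b with hab | hab
      · refine (normal_bound hG hAlg hAB hA hV hVc hVp ha hb).trans (le_of_eq ?_)
        rw [min_eq_left hab]; ring_nf
      · refine (normal_bound hG hAlg hBA hB hV hVc hVp hb ha).trans (le_of_eq ?_)
        rw [min_eq_right hab]; ring_nf
    refine le_trans ?_ e1
    have e2 : (K ⊓ N).relIndex (H ⊓ N) =
        ((K ⊓ N).subgroupOf N).relIndex ((H ⊓ N).subgroupOf N) :=
      (Subgroup.relIndex_subgroupOf inf_le_right).symm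
    rw [e2]
    refine (relIndex_le_ker (n := p) (K := (K ⊓ N).subgroupOf N) ?_).trans ?_
    · intro h hh
      rw [Subgroup.mem_subgroupOf] at hh ⊢
      rw [Subgroup.coe_pow]
      exact ⟨hS.2.1 _ hh.1, N.pow_mem hh.2 p⟩
    · refine Nat.card_le_card_of_injective
        (fun x : (powMonoidHom p : N →* N).ker => (⟨((x : N) : G), ?_⟩ : V)) ?_
      · refine ⟨(x : N).2, ?_⟩
        have := x.2
        rw [MonoidHom.mem_ker] at this
        have h3 := congrArg (Subtype.val) this
        simpa using h3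
      · intro x y hxy
        have := congrArg Subtype.val hxy
        exact Subtype.ext (Subtype.ext this)
  -- the part above `N`
  have h2 : (K ⊔ N).relIndex (H ⊔ N) ≤ p ^ (a + b) := by
    let cQ : CommGroup (G ⧸ N) :=
      { (inferInstance : Group (G ⧸ N)) with
        mul_comm := by
          intro x y
          induction x using QuotientGroup.induction_on with
          | H x =>
          induction y using QuotientGroup.induction_on with
          | H y =>
            change (QuotientGroup.mk (x * y) : G ⧸ N) = QuotientGroup.mk (y * x)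
            rw [QuotientGroup.eq]
            have e : (x * y)⁻¹ * (y * x) = ⁅y⁻¹, x⁻¹⁆ := by
              simp only [commutatorElement_def]; group
            rw [e]
            exact hcN _ _ }
    let π : G →* G ⧸ N := QuotientGroup.mk' N
    have hπ : Function.Surjective π := QuotientGroup.mk'_surjective N
    have e1 : (K ⊔ N).relIndex (H ⊔ N) = (K.map π).relIndex (H.map π) := by
      have hk : π.ker = N := QuotientGroup.ker_mk' N
      have e3 : (K.map π).comap π = K ⊔ N := by rw [Subgroup.comap_map_eq, hk]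
      have e4 : (H.map π).comap π = H ⊔ N := by rw [Subgroup.comap_map_eq, hk]
      rw [← e3, ← e4, Subgroup.relIndex_comap, Subgroup.map_comap_eq_self_of_surjective hπ]
    rw [e1]
    refine (relIndex_le_ker (n := p) (K := K.map π) ?_).trans ?_
    · rintro _ ⟨h, hh, rfl⟩
      exact ⟨h ^ p, hS.2.1 h hh, map_pow π h p⟩
    rw [← index_range_pow]
    let R : Subgroup (G ⧸ N) := (powMonoidHom p : (G ⧸ N) →* (G ⧸ N)).range
    let T : Subgroup G := R.comap π
    have hT : T.Normal := inferInstance
    have e2 : R.index = T.index := (Subgroup.index_comap_of_surjective R hπ).symm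
    have hpT : ∀ x : G, x ^ p ∈ T := fun x => ⟨π x, (map_pow π x p).symm⟩
    change R.index ≤ _
    rw [e2, pow_add]
    have hAT : (A ⊓ T).relIndex A ≤ p ^ a := by
      refine ha _ _ le_rfl ⟨inf_le_left, fun x hx => ⟨A.pow_mem hx p, hpT x⟩, ?_⟩
      intro x hx y hy
      have : ⁅x, y⁆ = 1 := by
        rw [commutatorElement_eq_one_iff_mul_comm]
        exact hA x hx y hy
      rw [this]; exact Subgroup.one_mem _
    have hBT : (B ⊓ T).relIndex B ≤ p ^ b := by
      refine hb _ _ le_rfl ⟨inf_le_left, fun x hx => ⟨B.pow_mem hx p, hpT x⟩, ?_⟩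
      intro x hx y hy
      have : ⁅x, y⁆ = 1 := by
        rw [commutatorElement_eq_one_iff_mul_comm]
        exact hB x hx y hy
      rw [this]; exact Subgroup.one_mem _
    refine le_trans ?_ (Nat.mul_le_mul hAT hBT)
    rw [Subgroup.inf_relIndex_left, Subgroup.inf_relIndex_left, Subgroup.relIndex,
      Subgroup.relIndex, Subgroup.index_eq_card, Subgroup.index_eq_card, Subgroup.index_eq_card,
      ← Nat.card_prod]
    have hwf : ∀ (S : Subgroup G) (x y : S), (QuotientGroup.leftRel (T.subgroupOf S)) x y →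
        (QuotientGroup.mk (x : G) : G ⧸ T) = QuotientGroup.mk (y : G) := by
      intro S x y hxy
      rw [QuotientGroup.leftRel_apply, Subgroup.mem_subgroupOf] at hxy
      rw [QuotientGroup.eq]
      exact hxy
    let f : (A ⧸ T.subgroupOf A) × (B ⧸ T.subgroupOf B) → G ⧸ T := fun q =>
      Quotient.liftOn' q.1 (fun x : A => (QuotientGroup.mk (x : G) : G ⧸ T)) (hwf A) *
      Quotient.liftOn' q.2 (fun x : B => (QuotientGroup.mk (x : G) : G ⧸ T)) (hwf B)
    refine Nat.card_le_card_of_surjective f ?_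
    intro q
    induction q using QuotientGroup.induction_on with
    | H g =>
      obtain ⟨x, hx, y, hy, rfl⟩ := hAB g
      exact ⟨(QuotientGroup.mk (⟨x, hx⟩ : A), QuotientGroup.mk (⟨y, hy⟩ : B)), rfl⟩
  calc K.relIndex H ≤ (K ⊔ N).relIndex (H ⊔ N) * (K ⊓ N).relIndex (H ⊓ N) := h0
    _ ≤ p ^ (a + b) * p ^ (a + b + C * min a b) := Nat.mul_le_mul h2 h1
    _ = p ^ (2 * a + 2 * b + C * min a b) := by rw [← pow_add]; ring_nf

end Pool.Agent.Lib.MP_b83a82_al.AF
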