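import Pool.Agent.Lib.MP_b83a82_al.AF.Cocycle
import Pool.Agent.Lib.MP_b83a82_al.Core

/-! Normal elementary abelian subgroups of a product with one commutative factor. -/

namespace Pool.Agent.Lib.MP_b83a82_al.AF

open _root_.MP_b83a82_al
open scoped commutatorElement

universe u

variable {G : Type u} [Group G]

/-- the part of `A` occurring in the factorisations of the elements of `V`. -/
def partA (A B V : Subgroup G) (hV : V.Normal) : Subgroup G where
  carrier := {a | a ∈ A ∧ ∃ b ∈ B, a * b ∈ V}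
  one_mem' := ⟨A.one_mem, 1, B.one_mem, by rw [one_mul]; exact V.one_mem⟩
  mul_mem' := by
    rintro a a' ⟨ha, b, hb, hab⟩ ⟨ha', b', hb', hab'⟩
    refine ⟨A.mul_mem ha ha', b' * b, B.mul_mem hb' hb, ?_⟩
    have e : a * a' * (b' * b) = (a * (a' * b') * a⁻¹) * (a * b) := by group
    rw [e]
    exact V.mul_mem (hV.conj_mem _ hab' a) hab
  inv_mem' := by
    rintro a ⟨ha, b, hb, hab⟩
    refine ⟨A.inv_mem ha, b⁻¹, B.inv_mem hb, ?_⟩
    have e : a⁻¹ * b⁻¹ = (a⁻¹ * (a * b) * a⁻¹⁻¹)⁻¹ := by group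
    rw [e]
    exact V.inv_mem (hV.conj_mem _ hab a⁻¹)

theorem mem_partA {A B V : Subgroup G} {hV : V.Normal} {a : G} :
    a ∈ partA A B V hV ↔ a ∈ A ∧ ∃ b ∈ B, a * b ∈ V := Iff.rfl

theorem partA_conj {A B V : Subgroup G} {hV : V.Normal}
    (hVc : ∀ x ∈ V, ∀ y ∈ V, x * y = y * x) {a : G} (ha : a ∈ partA A B V hV) {u : G}
    (hu : u ∈ B ⊓ V) : a * u * a⁻¹ ∈ B ⊓ V := by
  obtain ⟨haA, b, hb, hab⟩ := ha
  refine ⟨?_, hV.conj_mem _ hu.2 a⟩
  have h1 : b⁻¹ * u * b⁻¹⁻¹ ∈ V := hV.conj_mem _ hu.2 b⁻¹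
  have h2 := hVc _ hab _ h1
  have e : a * u * a⁻¹ = b⁻¹ * u * b := by
    have e1 : a * u * a⁻¹ = (a * b) * (b⁻¹ * u * b⁻¹⁻¹) * (a * b)⁻¹ := by group
    rw [e1, h2]; group
  rw [e]
  exact B.mul_mem (B.mul_mem (B.inv_mem hb) hu.1) hb

theorem normal_bound [Finite G] {p C a b : ℕ} [hp : Fact p.Prime] (hG : IsPGroup p G)
    (hAlg : AlgCard.{u} p C) {A B V : Subgroup G} (hAB : ∀ g : G, ∃ x ∈ A, ∃ y ∈ B, x * y = g)
    (hAc : ∀ x ∈ A, ∀ y ∈ A, x * y = y * x) (hV : V.Normal)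
    (hVc : ∀ x ∈ V, ∀ y ∈ V, x * y = y * x) (hVp : ∀ x ∈ V, x ^ p = 1)
    (ha : RkLE p A a) (hb : RkLE p B b) : Nat.card V ≤ p ^ (b + C * a) := by
  let cV : CommGroup V :=
    { (inferInstance : Group V) with
      mul_comm := fun x y => Subtype.ext (hVc x x.2 y y.2) }
  let A₁ : Subgroup G := partA A B V hV
  let cA : CommGroup A₁ :=
    { (inferInstance : Group A₁) with
      mul_comm := fun x y => Subtype.ext (hAc x x.2.1 y y.2.1) }
  let U : Subgroup V := (B ⊓ V).subgroupOf V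
  let M := Additive (V ⧸ U)
  have hbs : ∀ x : A₁, ∃ y ∈ B, (x : G) * y ∈ V := fun x => x.2.2
  choose β hβB hβV using hbs
  let δ : A₁ → M := fun x => Additive.ofMul (QuotientGroup.mk (⟨x * β x, hβV x⟩ : V))
  -- the value does not depend on the choice
  have hval : ∀ (x : A₁) (y : G) (hy : y ∈ B) (h : (x : G) * y ∈ V),
      δ x = Additive.ofMul (QuotientGroup.mk (⟨x * y, h⟩ : V)) := by
    intro x y hy h
    change Additive.ofMul (QuotientGroup.mk (⟨x * β x, hβV x⟩ : V)) = _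
    congr 1
    rw [QuotientGroup.eq, Subgroup.mem_subgroupOf]
    have e : ((((⟨x * β x, hβV x⟩ : V))⁻¹ * (⟨x * y, h⟩ : V) : V) : G) = (β x)⁻¹ * y := by
      simp only [Subgroup.coe_mul, Subgroup.coe_inv]
      group
    rw [e]
    refine ⟨B.mul_mem (B.inv_mem (hβB x)) hy, ?_⟩
    rw [← e]
    exact SetLike.coe_mem _
  let cj : A₁ → (V →* V) := fun x => (MulAut.conjNormal (H := V) (x : G)).toMonoidHom
  have hcj : ∀ (x : A₁) (v : V), ((cj x v : V) : G) = x * v * (x : G)⁻¹ := fun x v =>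
    MulAut.conjNormal_apply (x : G) v
  have hcjU : ∀ x : A₁, U ≤ U.comap (cj x) := by
    intro x u hu
    rw [Subgroup.mem_comap, Subgroup.mem_subgroupOf, hcj]
    exact partA_conj hVc x.2 (Subgroup.mem_subgroupOf.mp hu)
  let α : A₁ → M →+ M := fun x =>
    MonoidHom.toAdditive (QuotientGroup.map U U (cj x) (hcjU x))
  have hα : ∀ (x : A₁) (v : V), α x (Additive.ofMul (QuotientGroup.mk v)) =
      Additive.ofMul (QuotientGroup.mk (cj x v)) := fun _ _ => rfl
  have hδ : ∀ x y, δ (x * y) = δ x + α x (δ y) := by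
    intro x y
    have h1 : ((x * y : A₁) : G) * (β y * β x) ∈ V := by
      have e : ((x * y : A₁) : G) * (β y * β x) =
          ((x : G) * ((y : G) * β y) * (x : G)⁻¹) * (x * β x) := by
        rw [Subgroup.coe_mul]; group
      rw [e]
      exact V.mul_mem (hV.conj_mem _ (hβV y) x) (hβV x)
    rw [hval (x * y) (β y * β x) (B.mul_mem (hβB y) (hβB x)) h1]
    change _ = Additive.ofMul (QuotientGroup.mk (⟨x * β x, hβV x⟩ : V)) +
      Additive.ofMul (QuotientGroup.mk (cj x ⟨y * β y, hβV y⟩))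
    have key : (⟨((x * y : A₁) : G) * (β y * β x), h1⟩ : V) =
        (⟨x * β x, hβV x⟩ : V) * cj x ⟨y * β y, hβV y⟩ := by
      apply Subtype.ext
      have e3 : (((⟨x * β x, hβV x⟩ : V) * cj x ⟨y * β y, hβV y⟩ : V) : G) =
          (x : G) * β x * ((x : G) * ((y : G) * β y) * (x : G)⁻¹) := by
        rw [Subgroup.coe_mul, hcj]
      refine Eq.trans ?_ e3.symm
      change (x : G) * (y : G) * (β y * β x) = _
      have h2 := hVc _ (hβV x) _ (hV.conj_mem _ (hβV y) x)
      rw [h2]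
      group
    rw [key]
    rfl
  have hs : Function.Surjective δ := by
    intro m
    induction m using Additive.rec with
    | ofMul m =>
    induction m using QuotientGroup.induction_on with
    | H v =>
      obtain ⟨x, hx, y, hy, hxy⟩ := hAB v
      have h1 : x * y ∈ V := by rw [hxy]; exact v.2
      refine ⟨⟨x, hx, y, hy, h1⟩, ?_⟩
      rw [hval ⟨x, hx, y, hy, h1⟩ y hy h1]
      congr 2
      exact Subtype.ext hxy
  have hpM : ∀ m : M, p • m = 0 := by
    intro m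
    induction m using Additive.rec with
    | ofMul m =>
    induction m using QuotientGroup.induction_on with
    | H v =>
      rw [← ofMul_pow, ← QuotientGroup.mk_pow]
      have : v ^ p = 1 := Subtype.ext (hVp v v.2)
      rw [this, QuotientGroup.mk_one, ofMul_one]
  have hA1 : ∀ x : A₁, ∃ k : ℕ, x ^ (p ^ k) = 1 := hG.to_subgroup A₁
  obtain ⟨s, hsd, hbound⟩ := cocycle_bound α δ hAlg hpM hA1 hδ hs
  -- zeros of the cocycle
  have hz : ∀ x : A₁, δ x = 0 → (x : G) ∈ B := by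
    intro x hx
    have h1 : (QuotientGroup.mk (⟨x * β x, hβV x⟩ : V) : V ⧸ U) = 1 := by
      have := congrArg Additive.toMul hx
      exact this
    rw [QuotientGroup.eq_one_iff, Subgroup.mem_subgroupOf] at h1
    have h2 : (x : G) * β x * (β x)⁻¹ ∈ B := B.mul_mem h1.1 (B.inv_mem (hβB x))
    simpa using h2
  have hz' : ∀ x : A₁, (x : G) ∈ B → δ x = 0 := by
    intro x hx
    have h1 : (x : G) * (x : G)⁻¹ ∈ V := by rw [mul_inv_cancel]; exact V.one_mem
    rw [hval x (x : G)⁻¹ (B.inv_mem hx) h1]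
    have : (⟨(x : G) * (x : G)⁻¹, h1⟩ : V) = 1 := Subtype.ext (mul_inv_cancel _)
    rw [this, QuotientGroup.mk_one, ofMul_one]
  let A₂ : Subgroup G :=
    { carrier := {x | x ∈ A₁ ∧ x ^ p ∈ B}
      one_mem' := ⟨A₁.one_mem, by rw [one_pow]; exact B.one_mem⟩
      mul_mem' := by
        rintro x y ⟨hx, hx'⟩ ⟨hy, hy'⟩
        refine ⟨A₁.mul_mem hx hy, ?_⟩
        have h1 : Commute x y := hAc x hx.1 y hy.1
        rw [h1.mul_pow]
        exact B.mul_mem hx' hy'
      inv_mem' := by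
        rintro x ⟨hx, hx'⟩
        refine ⟨A₁.inv_mem hx, ?_⟩
        rw [inv_pow]
        exact B.inv_mem hx' }
  have hA2 : ∀ x, x ∈ A₂ ↔ x ∈ A₁ ∧ x ^ p ∈ B := fun _ => Iff.rfl
  have hEl : ElSec p (A ⊓ B) A₂ := by
    refine ⟨?_, ?_, ?_⟩
    · intro x hx
      refine ⟨⟨hx.1, x⁻¹, B.inv_mem hx.2, ?_⟩, B.pow_mem hx.2 p⟩
      rw [mul_inv_cancel]; exact V.one_mem
    · intro x hx
      exact ⟨A.pow_mem hx.1.1 p, hx.2⟩
    · intro x hx y hy
      have : ⁅x, y⁆ = 1 := by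
        rw [commutatorElement_eq_one_iff_mul_comm]
        exact hAc x hx.1.1 y hy.1.1
      rw [this]
      exact Subgroup.one_mem _
  have h1 : (A ⊓ B).relIndex A₂ ≤ p ^ a := ha _ _ (fun x hx => hx.1.1) hEl
  have h2 : Nat.card {x : M // δ (s x ^ p) = 0} ≤ (A ⊓ B).relIndex A₂ := by
    rw [Subgroup.relIndex, Subgroup.index_eq_card]
    have hmem : ∀ x : {x : M // δ (s x ^ p) = 0}, ((s x : A₁) : G) ∈ A₂ := by
      intro x
      refine ⟨(s x).2, ?_⟩
      have := hz _ x.2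
      rwa [Subgroup.coe_pow] at this
    refine Nat.card_le_card_of_injective
      (fun x => (QuotientGroup.mk (⟨s x, hmem x⟩ : A₂) : A₂ ⧸ (A ⊓ B).subgroupOf A₂)) ?_
    intro x y hxy
    rw [QuotientGroup.eq, Subgroup.mem_subgroupOf] at hxy
    have e : ((((⟨s x, hmem x⟩ : A₂))⁻¹ * (⟨s y, hmem y⟩ : A₂) : A₂) : G) =
        (((s x)⁻¹ * s y : A₁) : G) := by
      simp only [Subgroup.coe_mul, Subgroup.coe_inv]
    rw [e] at hxy
    have h3 := hz' _ hxy.2
    have h4 : δ (s y) = δ (s x) := by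
      have h5 : s y = s x * ((s x)⁻¹ * s y) := by group
      rw [h5, hδ, h3, map_zero, add_zero]
    rw [hsd, hsd] at h4
    exact Subtype.ext h4.symm
  have h3 : Nat.card V = Nat.card M * Nat.card U := by
    have := Subgroup.card_eq_card_quotient_mul_card_subgroup U
    exact this
  have h4 : Nat.card U ≤ p ^ b := by
    have e1 : Nat.card U = (⊥ : Subgroup G).relIndex (B ⊓ V) := by
      rw [Subgroup.relIndex_bot_left]
      exact Nat.card_congr (Subgroup.subgroupOfEquivOfLe inf_le_right).toEquiv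
    rw [e1]
    refine hb _ _ inf_le_left ⟨bot_le, ?_, ?_⟩
    · intro x hx
      rw [hVp x hx.2]; exact Subgroup.one_mem _
    · intro x hx y hy
      have : ⁅x, y⁆ = 1 := by
        rw [commutatorElement_eq_one_iff_mul_comm]
        exact hVc x hx.2 y hy.2
      rw [this]; exact Subgroup.one_mem _
  rw [h3, pow_add, mul_comm]
  refine Nat.mul_le_mul h4 ?_
  refine hbound.trans ?_
  rw [mul_comm C a, pow_mul]
  exact Nat.pow_le_pow_left (h2.trans h1) C

end Pool.Agent.Lib.MP_b83a82_al.AF
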