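import Pool.Agent.Lib.MP_b83a82_al.AF.Assembly
import Pool.Agent.Lib.MP_b83a82_al.AF.Normal
import Pool.Agent.Lib.MP_b83a82_al.Alg.Bridge
import Pool.Agent.Lib.MP_b83a82_al.AF.Generic

/-! One abelian factor. -/

namespace Pool.Agent.Lib.MP_b83a82_al.AF

open _root_.MP_b83a82_al
open scoped commutatorElement

universe u

section
variable {G : Type u} [Group G] [Finite G] {p : ℕ} [hp : Fact p.Prime]

theorem action_bound {A V : Subgroup G} (hAc : ∀ x ∈ A, ∀ y ∈ A, x * y = y * x)
    (hV : V.Normal) (hVc : ∀ x ∈ V, ∀ y ∈ V, x * y = y * x) (hVp : ∀ x ∈ V, x ^ p = 1)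
    {a n : ℕ} (ha : RkLE p A a) (hn : Nat.card V = p ^ n) :
    (actS V ⊥ inferInstance).relIndex A ≤ p ^ (a + n) := by
  let cA : CommGroup A :=
    { (inferInstance : Group A) with
      mul_comm := fun x y => Subtype.ext (hAc x x.2 y y.2) }
  let cV : CommGroup V :=
    { (inferInstance : Group V) with
      mul_comm := fun x y => Subtype.ext (hVc x x.2 y y.2) }
  let ψ : A →* MulAut V := MulAut.conjNormal.comp A.subtype
  have hker : ψ.ker = (actS V ⊥ (inferInstance : (⊥ : Subgroup G).Normal)).subgroupOf A := by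
    ext x
    rw [MonoidHom.mem_ker, Subgroup.mem_subgroupOf]
    change _ ↔ Act (x : G) V ⊥
    rw [act_bot]
    constructor
    · intro h y hy
      have h1 := congrArg (fun f => ((f ⟨y, hy⟩ : V) : G)) h
      have h2 : (x : G) * y * (x : G)⁻¹ = y := by simpa [ψ] using h1
      exact mul_inv_eq_iff_eq_mul.mp h2
    · intro h
      ext y
      have h1 := h y y.2
      have h2 : (x : G) * y * (x : G)⁻¹ = y := by rw [h1]; group
      simpa [ψ] using h2
  let toEnd : MulAut V →* AddMonoid.End (Additive V) :=
    { toFun := fun f => AddMonoidHom.mk' (fun x => Additive.ofMul (f x.toMul)) (by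
        intro x y
        simp)
      map_one' := by ext x; rfl
      map_mul' := by intro f g; ext x; rfl }
  have htoEnd : Function.Injective toEnd := by
    intro f g h
    ext x
    have h1 := congrArg (fun k => ((k (Additive.ofMul x)).toMul : V)) h
    exact congrArg Subtype.val h1
  let S := A ⧸ ψ.ker
  let f : S →* AddMonoid.End (Additive V) := toEnd.comp (QuotientGroup.kerLift ψ)
  have hf : Function.Injective f := htoEnd.comp (QuotientGroup.kerLift_injective ψ)
  have hind : (powMonoidHom p : S →* S).range.index ≤ p ^ a := by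
    let π : A →* S := QuotientGroup.mk' ψ.ker
    have hπ : Function.Surjective π := QuotientGroup.mk'_surjective _
    let R : Subgroup A := ((powMonoidHom p : S →* S).range).comap π
    have h1 : R.index = (powMonoidHom p : S →* S).range.index :=
      Subgroup.index_comap_of_surjective _ hπ
    rw [← h1]
    have h2 : (R.map A.subtype).relIndex A = R.index := by
      rw [Subgroup.relIndex, Subgroup.subgroupOf,
        Subgroup.comap_map_eq_self_of_injective A.subtype_injective]
    rw [← h2]
    refine ha _ _ le_rfl ⟨Subgroup.map_subtype_le R, ?_, ?_⟩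
    · intro x hx
      refine ⟨(⟨x, hx⟩ : A) ^ p, ?_, by simp⟩
      change π ((⟨x, hx⟩ : A) ^ p) ∈ (powMonoidHom p : S →* S).range
      rw [map_pow]
      exact ⟨_, rfl⟩
    · intro x hx y hy
      have h3 : ⁅x, y⁆ = 1 := commutatorElement_eq_one_iff_mul_comm.mpr (hAc x hx y hy)
      rw [h3]
      exact Subgroup.one_mem _
  have h1 := lemmaE (V := Additive V) (fun v => by
      have := hVp v.toMul v.toMul.2
      apply Additive.toMul.injective
      apply Subtype.ext
      simpa using this) (by
      rw [← hn]; exact Nat.card_congr Additive.toMul) f hf hind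
  have h2 : (actS V ⊥ (inferInstance : (⊥ : Subgroup G).Normal)).relIndex A = Nat.card S := by
    rw [Subgroup.relIndex, ← hker, Subgroup.index_eq_card]
  rw [h2]
  exact h1

/-- **One abelian factor.** -/
theorem rk_one_abelian (hG : IsPGroup p G) {A B : Subgroup G} {C : ℕ}
    (hAlg : AlgCard.{u} p C) (hAB : ∀ g : G, ∃ x ∈ A, ∃ y ∈ B, x * y = g)
    (hAc : ∀ x ∈ A, ∀ y ∈ A, x * y = y * x) {a b : ℕ}
    (ha : RkLE p A a) (hb : RkLE p B b) :
    RkLE p (⊤ : Subgroup G) ((2 * C + 2) * a + 3 * b) := by
  have h := rk_of_action hG hAB (n := b + C * a) (c := a + (b + C * a)) ha hb ?_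
  · have e : b + C * a + b + (a + (a + (b + C * a))) = (2 * C + 2) * a + 3 * b := by ring
    rwa [e] at h
  · intro V hV hVc hVp
    have h1 := normal_bound hG hAlg hAB hAc hV hVc hVp ha hb
    refine ⟨h1, ?_⟩
    obtain ⟨k, hk⟩ := IsPGroup.iff_card.mp (hG.to_subgroup V)
    refine (action_bound hAc hV hVc hVp ha hk).trans ?_
    rw [hk] at h1
    have h2 : k ≤ b + C * a := (Nat.pow_le_pow_iff_right hp.out.one_lt).mp h1
    exact Nat.pow_le_pow_right hp.out.pos (by omega)

end

end Pool.Agent.Lib.MP_b83a82_al.AF
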