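import Pool.Agent.Lib.MP_b83a82_al.Series

/-! Finite `p`-groups in which every element of order dividing `p ^ 2` is central. -/

namespace Pool.Agent.Lib.MP_b83a82_al.AF

open _root_.MP_b83a82_al
open scoped commutatorElement

universe u

/-- every element of order dividing `p ^ 2` is central -/
def Cen (p : ℕ) (P : Type*) [Group P] : Prop :=
  ∀ x : P, x ^ (p ^ 2) = 1 → ∀ y : P, x * y = y * x

theorem mul_pow_class_two' {P : Type*} [Group P] {c x z : P} (hz : z * (c * x) = x * c)
    (hzc : Commute z c) (hzx : Commute z x) (n : ℕ) :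
    c ^ n * x ^ n = (c * x) ^ n * z⁻¹ ^ (n * (n - 1) / 2) := by
  have hzx' : ∀ m : ℕ, x ^ m * c = z ^ m * (c * x ^ m) := by
    intro m
    induction m with
    | zero => simp
    | succ m ih =>
      calc x ^ (m + 1) * c = x ^ m * (x * c) := by rw [pow_succ]; group
        _ = x ^ m * (z * (c * x)) := by rw [hz]
        _ = z * (x ^ m * (c * x)) := by rw [← mul_assoc, ← (hzx.pow_right m).eq, mul_assoc]
        _ = z * ((x ^ m * c) * x) := by group
        _ = z * ((z ^ m * (c * x ^ m)) * x) := by rw [ih]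
        _ = z ^ (m + 1) * (c * x ^ (m + 1)) := by rw [pow_succ', pow_succ x]; group
  have key : ∀ m : ℕ, (c * x) ^ m = z ^ (m * (m - 1) / 2) * (c ^ m * x ^ m) := by
    intro m
    induction m with
    | zero => simp
    | succ m ih =>
      have e1 : (m + 1) * (m + 1 - 1) / 2 = m * (m - 1) / 2 + m := by
        rw [← Nat.triangle_succ]
      calc (c * x) ^ (m + 1) = (c * x) ^ m * (c * x) := pow_succ _ _
        _ = z ^ (m * (m - 1) / 2) * (c ^ m * (x ^ m * c) * x) := by rw [ih]; group
        _ = z ^ (m * (m - 1) / 2) * (c ^ m * (z ^ m * (c * x ^ m)) * x) := by rw [hzx']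
        _ = z ^ (m * (m - 1) / 2) * (z ^ m * (c ^ m * (c * x ^ m) * x)) := by
          rw [← mul_assoc (c ^ m) (z ^ m), ← (hzc.pow_pow m m).eq]
          simp only [mul_assoc]
        _ = z ^ ((m + 1) * (m + 1 - 1) / 2) * (c ^ (m + 1) * x ^ (m + 1)) := by
          rw [e1, pow_add, pow_succ c, pow_succ x]
          simp only [mul_assoc]
  have hcz : Commute (z ^ (n * (n - 1) / 2)) (c ^ n * x ^ n) :=
    (hzc.pow_pow _ _).mul_right (hzx.pow_pow _ _)
  rw [key n, inv_pow, hcz.eq, mul_assoc, mul_inv_cancel, mul_one]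

theorem mul_pow_class_two {P : Type*} [Group P] {c x z : P} (hz : z * (c * x) = x * c)
    (hc : ∀ y : P, z * y = y * z) (n : ℕ) :
    c ^ n * x ^ n = (c * x) ^ n * z⁻¹ ^ (n * (n - 1) / 2) :=
  mul_pow_class_two' hz (hc c) (hc x) n

theorem dvd_tri {p : ℕ} (hp : p.Prime) : p ∣ p ^ 2 * (p ^ 2 - 1) / 2 := by
  rcases hp.eq_two_or_odd' with rfl | hodd
  · norm_num
  · obtain ⟨k, rfl⟩ := hodd
    have e : (2 * k + 1) ^ 2 * ((2 * k + 1) ^ 2 - 1) / 2 =
        (2 * k + 1) * ((2 * k + 1) * (2 * k * (k + 1))) := by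
      have h1 : (2 * k + 1) ^ 2 - 1 = 2 * (2 * k * (k + 1)) := by
        have : (2 * k + 1) ^ 2 = 2 * (2 * k * (k + 1)) + 1 := by ring
        omega
      rw [h1]
      apply Nat.div_eq_of_eq_mul_left (by norm_num)
      ring
    rw [e]
    exact Dvd.intro _ rfl

theorem Cen.comm_pow {p : ℕ} [hp : Fact p.Prime] {P : Type*} [Group P] [Finite P]
    (hP : IsPGroup p P) (hc : Cen p P) {x : P} (hx : x ^ (p ^ 3) = 1) (y : P) :
    ⁅x, y⁆ ^ p = 1 := by
  have hnil : Group.IsNilpotent P := hP.isNilpotent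
  obtain ⟨n, hn⟩ := Subgroup.nilpotent_iff_lowerCentralSeries.mp hnil
  have h1 : ∀ y : P, x ^ p * y = y * x ^ p := by
    apply hc
    rw [← pow_mul, ← pow_succ']
    exact hx
  have h2 : ∀ y : P, x ^ (p ^ 2) * y = y * x ^ (p ^ 2) := by
    intro y
    rw [pow_two, pow_mul]
    exact Commute.pow_left (h1 y) p
  have key : ∀ (m j : ℕ), j + m = n →
      ∀ y ∈ (⊤ : Subgroup P).lowerCentralSeries j, ⁅x, y⁆ ^ p = 1 := by
    intro m
    induction m with
    | zero =>
      intro j hj y hy
      rw [add_zero] at hj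
      subst hj
      rw [hn, Subgroup.mem_bot] at hy
      subst hy
      simp [commutatorElement_def]
    | succ m ih =>
      intro j hj y hy
      have hcm : ⁅x, y⁆⁻¹ ∈ (⊤ : Subgroup P).lowerCentralSeries (j + 1) := by
        have e : ⁅x, y⁆⁻¹ = ⁅y, x⁆ := by simp only [commutatorElement_def]; group
        rw [e]
        exact Subgroup.commutator_mem_commutator hy (Subgroup.mem_top x)
      set d : P := ⁅x, y⁆⁻¹ with hd
      have hz : ⁅x, d⁆ ^ p = 1 := ih (j + 1) (by omega) d hcm
      have hzc : ∀ y : P, ⁅x, d⁆ * y = y * ⁅x, d⁆ := by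
        apply hc
        rw [pow_two, pow_mul, hz, one_pow]
      have hzr : ⁅x, d⁆ * (d * x) = x * d := by
        simp only [commutatorElement_def]; group
      have hdx : d * x = y * x * y⁻¹ := by
        rw [hd]; simp only [commutatorElement_def]; group
      have h3 := mul_pow_class_two hzr hzc (p ^ 2)
      have h4 : ⁅x, d⁆⁻¹ ^ (p ^ 2 * (p ^ 2 - 1) / 2) = 1 := by
        obtain ⟨k, hk⟩ := dvd_tri hp.out
        rw [hk, pow_mul, inv_pow, hz, inv_one, one_pow]
      rw [h4, mul_one, hdx, conj_pow, ← h2 y, mul_assoc, mul_inv_cancel, mul_one] at h3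
      have h5 : d ^ (p ^ 2) = 1 := by
        have := mul_right_cancel (h3.trans (one_mul _).symm)
        exact this
      have h6 : ∀ y : P, d * y = y * d := hc d h5
      have h7 : (d * x) ^ p = d ^ p * x ^ p := by
        have : Commute d x := h6 x
        exact this.mul_pow p
      rw [hdx, conj_pow, ← h1 y, mul_assoc, mul_inv_cancel, mul_one] at h7
      have h8 : d ^ p = 1 := by
        have := mul_right_cancel (h7.symm.trans (one_mul _).symm)
        exact this
      rw [hd, inv_pow, inv_eq_one] at h8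
      exact h8
  exact key n 0 (zero_add _) y (by simp)

/-- the central subgroup of elements of order dividing `p` -/
def E1 {p : ℕ} {P : Type*} [Group P] (hc : Cen p P) : Subgroup P where
  carrier := {x | x ^ p = 1}
  one_mem' := one_pow p
  mul_mem' := by
    intro x y hx hy
    have hx' : x ^ p = 1 := hx
    have hy' : y ^ p = 1 := hy
    have h1 : Commute x y := hc x (by rw [pow_two, pow_mul, hx', one_pow]) y
    change (x * y) ^ p = 1
    rw [h1.mul_pow, hx', hy', one_mul]
  inv_mem' := by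
    intro x hx
    have hx' : x ^ p = 1 := hx
    change (x⁻¹) ^ p = 1
    rw [inv_pow, hx', inv_one]

theorem mem_E1 {p : ℕ} {P : Type*} [Group P] {hc : Cen p P} {x : P} : x ∈ E1 hc ↔ x ^ p = 1 :=
  Iff.rfl

theorem E1_central {p : ℕ} {P : Type*} [Group P] {hc : Cen p P} {x : P} (hx : x ∈ E1 hc)
    (y : P) : x * y = y * x :=
  hc x (by rw [pow_two, pow_mul, mem_E1.mp hx, one_pow]) y

theorem E1_normal {p : ℕ} {P : Type*} [Group P] (hc : Cen p P) : (E1 hc).Normal := by
  constructor
  intro x hx g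
  rw [mem_E1, conj_pow, mem_E1.mp hx, mul_one, mul_inv_cancel]

theorem Cen.quot {p : ℕ} [hp : Fact p.Prime] {P : Type*} [Group P] [Finite P]
    (hP : IsPGroup p P) (hc : Cen p P) :
    letI := E1_normal hc
    Cen p (P ⧸ E1 hc) := by
  have := E1_normal hc
  intro x hx y
  induction x using QuotientGroup.induction_on with
  | H x =>
  induction y using QuotientGroup.induction_on with
  | H y =>
    rw [← QuotientGroup.mk_pow, QuotientGroup.eq_one_iff, mem_E1, ← pow_mul, ← pow_succ] at hx
    have h1 := hc.comm_pow hP hx y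
    have h2 : ((⁅x, y⁆ : P) : P ⧸ E1 hc) = 1 := by
      rw [QuotientGroup.eq_one_iff, mem_E1]
      exact h1
    have h3 : ⁅(x : P ⧸ E1 hc), (y : P ⧸ E1 hc)⁆ = 1 := h2
    exact commutatorElement_eq_one_iff_mul_comm.mp h3

theorem Cen.card_quot {p : ℕ} {P : Type*} [Group P] [Finite P]
    (hc : Cen p P) :
    letI := E1_normal hc
    Nat.card {x : P ⧸ E1 hc // x ^ p = 1} ≤ Nat.card {x : P // x ^ p = 1} := by
  have := E1_normal hc
  have h0 : ∀ x : P ⧸ E1 hc, ∃ y : P, (y : P ⧸ E1 hc) = x := fun x =>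
    QuotientGroup.mk_surjective x
  choose r hr using h0
  have h1 : ∀ x : P ⧸ E1 hc, x ^ p = 1 → (r x ^ p) ^ p = 1 := by
    intro x hx
    rw [← hr x, ← QuotientGroup.mk_pow, QuotientGroup.eq_one_iff, mem_E1] at hx
    exact hx
  refine Nat.card_le_card_of_injective
    (fun x : {x : P ⧸ E1 hc // x ^ p = 1} => (⟨r x.1 ^ p, h1 x.1 x.2⟩ : {x : P // x ^ p = 1})) ?_
  rintro ⟨x, hx⟩ ⟨y, hy⟩ hxy
  have h2 : r x ^ p = r y ^ p := congrArg Subtype.val hxy
  have h3 : ∀ z : P, r x * z = z * r x := by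
    apply hc
    rw [pow_two, pow_mul]
    exact h1 x hx
  have h4 : (r x * (r y)⁻¹) ^ p = 1 := by
    have : Commute (r x) (r y)⁻¹ := h3 _
    rw [this.mul_pow, h2, inv_pow, mul_inv_cancel]
  have h5 : ((r x * (r y)⁻¹ : P) : P ⧸ E1 hc) = 1 := by
    rw [QuotientGroup.eq_one_iff, mem_E1]
    exact h4
  rw [QuotientGroup.mk_mul, QuotientGroup.mk_inv, hr, hr, mul_inv_eq_one] at h5
  exact Subtype.ext h5

theorem Cen.sub {p : ℕ} {P : Type*} [Group P] (hc : Cen p P) (M : Subgroup P) : Cen p M := by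
  intro x hx y
  apply Subtype.ext
  apply hc
  have := congrArg Subtype.val hx
  simpa using this

theorem card_E1 {p : ℕ} {P : Type*} [Group P] (hc : Cen p P) :
    Nat.card (E1 hc) = Nat.card {x : P // x ^ p = 1} := rfl

/-- a complement of `W / K` in `G / K`. -/
theorem exists_compl {P : Type*} [Group P] [Finite P] {p : ℕ} [hp : Fact p.Prime]
    {K : Subgroup P} (hK : ElSec p K ⊤) (W : Subgroup P) (hKW : K ≤ W) :
    ∃ M : Subgroup P, K ≤ M ∧ W ⊓ M ≤ K ∧ ∀ g : P, ∃ m ∈ M, m⁻¹ * g ∈ W := by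
  let S : Set (Subgroup P) := {M | K ≤ M ∧ W ⊓ M ≤ K}
  have hS : S.Finite := Set.toFinite S
  have hne : S.Nonempty := ⟨K, le_rfl, inf_le_right⟩
  obtain ⟨M, hM, hmax⟩ := hS.exists_maximal hne
  refine ⟨M, hM.1, hM.2, ?_⟩
  by_contra hcon
  push Not at hcon
  obtain ⟨g, hg⟩ := hcon
  have hnor : ∀ N : Subgroup P, K ≤ N → N.Normal := by
    intro N hN
    constructor
    intro x hx h
    have e : h * x * h⁻¹ = ⁅h, x⁆ * x := by simp only [commutatorElement_def]; group
    rw [e]
    exact N.mul_mem (hN (hK.2.2 h (Subgroup.mem_top h) x (Subgroup.mem_top x))) hx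
  have hMn := hnor M hM.1
  have hWn := hnor W hKW
  have hgp : g ^ p ∈ K := hK.2.1 g (Subgroup.mem_top g)
  have hgn : g ∉ M ⊔ W := by
    intro h
    obtain ⟨m, hm, w, hw, e⟩ := (Subgroup.mem_sup_of_normal_left).mp h
    apply hg m hm
    rw [← e, ← mul_assoc, inv_mul_cancel, one_mul]
    exact hw
  have h1 : M ⊔ Subgroup.zpowers g ∈ S := by
    refine ⟨hM.1.trans le_sup_left, ?_⟩
    intro w hw
    obtain ⟨hw1, hw2⟩ := hw
    obtain ⟨m, hm, z, hz, e⟩ := (Subgroup.mem_sup_of_normal_left).mp hw2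
    obtain ⟨i, rfl⟩ := Subgroup.mem_zpowers_iff.mp hz
    by_cases hpi : (p : ℤ) ∣ i
    · obtain ⟨j, rfl⟩ := hpi
      apply hM.2
      refine ⟨hw1, ?_⟩
      rw [← e]
      refine M.mul_mem hm (hM.1 ?_)
      rw [zpow_mul, zpow_natCast]
      exact K.zpow_mem hgp j
    · exfalso
      apply hgn
      obtain ⟨u, v, huv⟩ := (Nat.prime_iff_prime_int.mp hp.out).coprime_iff_not_dvd.mpr hpi
      have hgi : g ^ i ∈ M ⊔ W := by
        have e2 : g ^ i = m⁻¹ * w := by rw [← e]; group
        rw [e2]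
        exact Subgroup.mul_mem _ (Subgroup.mem_sup_left (M.inv_mem hm))
          (Subgroup.mem_sup_right hw1)
      have e3 : g = (g ^ p) ^ u * (g ^ i) ^ v := by
        rw [← zpow_natCast, ← zpow_mul, ← zpow_mul, ← zpow_add, mul_comm (p : ℤ), mul_comm i,
          huv, zpow_one]
      rw [e3]
      exact Subgroup.mul_mem _
        (Subgroup.zpow_mem _ (Subgroup.mem_sup_right (hKW hgp)) _)
        (Subgroup.zpow_mem _ hgi _)
  have h2 := hmax h1 le_sup_left
  apply hgn
  exact Subgroup.mem_sup_left (h2 (Subgroup.mem_sup_right (Subgroup.mem_zpowers g)))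

theorem cen_case {p : ℕ} {M : Type*} [Group M] [Finite M]
    (hc : Cen p M) {K : Subgroup M} (hE : E1 hc ≤ K) (hK : ElSec p K ⊤)
    (ih : letI := E1_normal hc
      ∀ K' : Subgroup (M ⧸ E1 hc), ElSec p K' ⊤ →
        K'.index ≤ Nat.card {x : M ⧸ E1 hc // x ^ p = 1}) :
    K.index ≤ Nat.card {x : M // x ^ p = 1} := by
  have := E1_normal hc
  let π : M →* M ⧸ E1 hc := QuotientGroup.mk' (E1 hc)
  have hπ : Function.Surjective π := QuotientGroup.mk'_surjective _
  have hk : π.ker = E1 hc := QuotientGroup.ker_mk' _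
  have h1 : (K.map π).index = K.index := by
    rw [Subgroup.index_map, hk, sup_eq_left.mpr hE, MonoidHom.range_eq_top.mpr hπ,
      Subgroup.index_top, mul_one]
  rw [← h1]
  refine (ih (K.map π) ?_).trans hc.card_quot
  refine ⟨le_top, ?_, ?_⟩
  · intro x _
    obtain ⟨x, rfl⟩ := hπ x
    exact ⟨x ^ p, hK.2.1 x (Subgroup.mem_top x), by simp⟩
  · intro x _ y _
    obtain ⟨x, rfl⟩ := hπ x
    obtain ⟨y, rfl⟩ := hπ y
    exact ⟨⁅x, y⁆, hK.2.2 x (Subgroup.mem_top x) y (Subgroup.mem_top y), by
      simp [commutatorElement_def]⟩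

theorem cen_top {p : ℕ} [hp : Fact p.Prime] (n : ℕ) : ∀ (P : Type u) [Group P] [Finite P],
    Nat.card P = n → IsPGroup p P → Cen p P → ∀ K : Subgroup P, ElSec p K ⊤ →
      K.index ≤ Nat.card {x : P // x ^ p = 1} := by
  induction n using Nat.strong_induction_on with
  | _ n ih =>
    intro P _ _ hcard hP hc K hK
    have hEn := E1_normal hc
    obtain ⟨M, hKM, hWM, hcov⟩ := exists_compl hK (K ⊔ E1 hc) le_sup_left
    have hcM : Cen p M := hc.sub M
    have hPM : IsPGroup p M := hP.to_subgroup M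
    have hEM : E1 hcM ≤ K.subgroupOf M := by
      intro x hx
      rw [Subgroup.mem_subgroupOf]
      apply hWM
      refine ⟨Subgroup.mem_sup_right ?_, x.2⟩
      rw [mem_E1] at hx ⊢
      have := congrArg Subtype.val hx
      simpa using this
    have hKM' : ElSec p (K.subgroupOf M) ⊤ := by
      refine ⟨le_top, ?_, ?_⟩
      · intro x _
        rw [Subgroup.mem_subgroupOf]
        simpa using hK.2.1 x (Subgroup.mem_top _)
      · intro x _ y _
        rw [Subgroup.mem_subgroupOf]
        exact hK.2.2 x (Subgroup.mem_top _) y (Subgroup.mem_top _)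
    have h1 : (K.subgroupOf M).index ≤ Nat.card {x : M // x ^ p = 1} := by
      have hEMn := E1_normal hcM
      apply cen_case hcM hEM hKM'
      intro K' hK'
      by_cases htriv : Nat.card M = 1
      · have : Subsingleton M := (Nat.card_eq_one_iff_unique.mp htriv).1
        have h2 : K' = ⊤ := by
          rw [Subgroup.eq_top_iff']
          intro x
          obtain ⟨x, rfl⟩ := QuotientGroup.mk_surjective x
          have : x = 1 := Subsingleton.elim _ _
          rw [this]
          exact K'.one_mem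
        rw [h2, Subgroup.index_top]
        have : Nonempty {x : M ⧸ E1 hcM // x ^ p = 1} := ⟨⟨1, one_pow p⟩⟩
        exact Nat.card_pos
      · have h3 : Nat.card (M ⧸ E1 hcM) < n := by
          have h4 : Nat.card M = Nat.card (M ⧸ E1 hcM) * Nat.card (E1 hcM) :=
            Subgroup.card_eq_card_quotient_mul_card_subgroup _
          have h5 : Nat.card M ≤ Nat.card P := Subgroup.card_le_card_group M
          have h6 : 2 ≤ Nat.card (E1 hcM) := by
            obtain ⟨k, hk⟩ := IsPGroup.iff_card.mp hPM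
            have hk0 : k ≠ 0 := by
              rintro rfl
              exact htriv (by simpa using hk)
            have hdvd : p ∣ Nat.card M := by rw [hk]; exact dvd_pow_self p hk0
            obtain ⟨x, hx⟩ := exists_prime_orderOf_dvd_card' p hdvd
            have hx1 : x ∈ E1 hcM := by rw [mem_E1, ← hx]; exact pow_orderOf_eq_one x
            have hx2 : x ≠ 1 := by
              rintro rfl
              rw [orderOf_one] at hx
              exact hp.out.one_lt.ne hx
            have : Nontrivial (E1 hcM) :=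
              ⟨⟨⟨x, hx1⟩, 1, fun h => hx2 (congrArg Subtype.val h)⟩⟩
            exact Finite.one_lt_card
          have h7 : 0 < Nat.card (M ⧸ E1 hcM) := Nat.card_pos
          have h8 : 0 < Nat.card M := Nat.card_pos
          nlinarith
        exact ih _ h3 (M ⧸ E1 hcM) rfl (hPM.to_quotient _) (hcM.quot hPM) K' hK'
    have h2 : Nat.card {x : M // x ^ p = 1} ≤ Nat.card (K ⊓ E1 hc : Subgroup P) := by
      refine Nat.card_le_card_of_injective
        (fun x : {x : M // x ^ p = 1} => (⟨(x.1 : P), ?_⟩ : (K ⊓ E1 hc : Subgroup P))) ?_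
      · have hx : (x.1 : M) ∈ E1 hcM := x.2
        refine ⟨Subgroup.mem_subgroupOf.mp (hEM hx), ?_⟩
        change ((x.1 : M) : P) ^ p = 1
        have := congrArg Subtype.val x.2
        simpa using this
      · intro x y hxy
        have := congrArg Subtype.val hxy
        exact Subtype.ext (Subtype.ext this)
    have h3 := relIndex_le_sup_mul_inf (K := K) (H := ⊤) le_top (E1 hc)
    have h4 : (K ⊔ E1 hc).relIndex (⊤ ⊔ E1 hc) ≤ (K.subgroupOf M).index := by
      have h5 : (K ⊔ E1 hc).relIndex ⊤ ≤ (K ⊔ E1 hc).relIndex M :=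
        relIndex_le_of_cover le_top (fun g _ => hcov g)
      rw [top_sup_eq]
      refine h5.trans ?_
      rw [← Subgroup.inf_relIndex_right]
      have h6 : (K ⊔ E1 hc) ⊓ M = K := le_antisymm hWM (le_inf le_sup_left hKM)
      rw [h6]
      exact le_rfl
    have h5 : Nat.card (K ⊓ E1 hc : Subgroup P) * (K ⊓ E1 hc).relIndex (⊤ ⊓ E1 hc) =
        Nat.card {x : P // x ^ p = 1} := by
      rw [top_inf_eq, ← card_E1 hc, ← Subgroup.relIndex_bot_left, ← Subgroup.relIndex_bot_left]
      exact Subgroup.relIndex_mul_relIndex _ _ _ bot_le inf_le_right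
    rw [Subgroup.relIndex_top_right] at h3
    rw [← h5]
    exact h3.trans (Nat.mul_le_mul_right _ (h4.trans (h1.trans h2)))

/-- the order of an elementary abelian section of a `p ^ 2`-central group is at most the number
of elements of order dividing `p`. -/
theorem cen_section {P : Type u} [Group P] [Finite P] {p : ℕ} [hp : Fact p.Prime]
    (hP : IsPGroup p P) (hc : Cen p P) {K H : Subgroup P} (h : ElSec p K H) :
    K.relIndex H ≤ Nat.card {x : P // x ^ p = 1} := by
  have h1 : ElSec p (K.subgroupOf H) ⊤ := by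
    refine ⟨le_top, ?_, ?_⟩
    · intro x _
      rw [Subgroup.mem_subgroupOf]
      simpa using h.2.1 x x.2
    · intro x _ y _
      rw [Subgroup.mem_subgroupOf]
      exact h.2.2 x x.2 y y.2
  refine (cen_top (Nat.card H) H rfl (hP.to_subgroup H) (hc.sub H) (K.subgroupOf H) h1).trans ?_
  refine Nat.card_le_card_of_injective
    (fun x : {x : H // x ^ p = 1} => (⟨(x.1 : P), ?_⟩ : {x : P // x ^ p = 1})) ?_
  · have := congrArg Subtype.val x.2
    simpa using this
  · intro x y hxy
    have := congrArg Subtype.val hxy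
    exact Subtype.ext (Subtype.ext this)

end Pool.Agent.Lib.MP_b83a82_al.AF
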